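import Mathlib

set_option autoImplicit false

/-!
Popular quotients of a finite set of small doubling in a group (after Tao, product set estimates for
non-commutative groups).
-/

namespace Pool.Agent.Work.MP_763b10_co

open Finset
open scoped Pointwise

variable {Γ : Type*} [Group Γ] [DecidableEq Γ]

/-- the quotients `s = a⁻¹ b` with at least `θ` representations -/
noncomputable def pop (A : Finset Γ) (θ : ℝ) : Finset Γ :=
  (A⁻¹ * A).filter (fun s => θ ≤ (#(A.filter (fun a => a * s ∈ A)) : ℝ))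

theorem mem_pop {A : Finset Γ} {θ : ℝ} {s : Γ} : s ∈ pop A θ ↔
    s ∈ A⁻¹ * A ∧ θ ≤ (#(A.filter (fun a => a * s ∈ A)) : ℝ) := by
  unfold pop; rw [mem_filter]

theorem pop_inv {A : Finset Γ} {θ : ℝ} {s : Γ} (hs : s ∈ pop A θ) : s⁻¹ ∈ pop A θ := by
  rw [mem_pop] at hs ⊢
  obtain ⟨h1, h2⟩ := hs
  obtain ⟨x, hx, y, hy, rfl⟩ := mem_mul.1 h1
  obtain ⟨a, ha, rfl⟩ := mem_inv.1 hx
  refine ⟨mem_mul.2 ⟨y⁻¹, Finset.inv_mem_inv hy, a, ha, by simp⟩, h2.trans ?_⟩
  have : #(A.filter (fun c => c * (a⁻¹ * y) ∈ A)) ≤ #(A.filter (fun c => c * (a⁻¹ * y)⁻¹ ∈ A)) := by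
    refine card_le_card_of_injOn (fun c => c * (a⁻¹ * y)) ?_ ?_
    · intro c hc
      have hc' := mem_filter.1 (mem_coe.1 hc)
      refine mem_coe.2 (mem_filter.2 ⟨hc'.2, ?_⟩)
      rw [mul_inv_cancel_right]
      exact hc'.1
    · intro c _ d _ hcd
      exact mul_right_cancel hcd
  exact_mod_cast this

theorem tao_step (B A : Finset Γ) (θ : ℝ) :
    θ * #(B * pop A θ * A⁻¹) ≤ (#(B * A⁻¹) : ℝ) * #(A * A⁻¹) := by
  have h1 : ∀ u ∈ B * pop A θ * A⁻¹, θ ≤
      (#(((B * A⁻¹) ×ˢ (A * A⁻¹)).filter (fun p => p.1 * p.2 = u)) : ℝ) := by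
    intro u hu
    obtain ⟨x, hx, y, hy, rfl⟩ := mem_mul.1 hu
    obtain ⟨b, hb, s, hs, rfl⟩ := mem_mul.1 hx
    obtain ⟨c, hc, rfl⟩ := mem_inv.1 hy
    refine (mem_pop.1 hs).2.trans ?_
    have : #(A.filter (fun a => a * s ∈ A)) ≤
        #(((B * A⁻¹) ×ˢ (A * A⁻¹)).filter (fun p => p.1 * p.2 = b * s * c⁻¹)) := by
      refine card_le_card_of_injOn (fun a => (b * a⁻¹, (a * s) * c⁻¹)) ?_ ?_
      · intro a ha
        have ha' := mem_filter.1 (mem_coe.1 ha)
        refine mem_coe.2 (mem_filter.2 ⟨mem_product.2 ⟨?_, ?_⟩, ?_⟩)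
        · exact mul_mem_mul hb (Finset.inv_mem_inv ha'.1)
        · exact mul_mem_mul ha'.2 (Finset.inv_mem_inv hc)
        · simp only; group
      · intro a _ a' _ h
        have := congrArg Prod.fst h
        simp only at this
        exact inv_injective (mul_left_cancel this)
    exact_mod_cast this
  have h2 : (#(((B * A⁻¹) ×ˢ (A * A⁻¹)).filter (fun p => p.1 * p.2 ∈ B * pop A θ * A⁻¹)) : ℝ) =
      ∑ u ∈ B * pop A θ * A⁻¹,
        (#(((B * A⁻¹) ×ˢ (A * A⁻¹)).filter (fun p => p.1 * p.2 = u)) : ℝ) := by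
    rw [← Nat.cast_sum]
    congr 1
    rw [Finset.card_eq_sum_card_fiberwise (f := fun p : Γ × Γ => p.1 * p.2)
      (t := B * pop A θ * A⁻¹)]
    · refine Finset.sum_congr rfl fun u hu => ?_
      congr 1
      ext p
      simp only [mem_filter]
      constructor
      · rintro ⟨⟨h3, -⟩, h4⟩; exact ⟨h3, h4⟩
      · rintro ⟨h3, h4⟩; exact ⟨⟨h3, h4 ▸ hu⟩, h4⟩
    · intro p hp
      exact mem_coe.2 (mem_filter.1 (mem_coe.1 hp)).2
  calc θ * #(B * pop A θ * A⁻¹) = ∑ _u ∈ B * pop A θ * A⁻¹, θ := by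
        rw [Finset.sum_const, nsmul_eq_mul]; ring
    _ ≤ ∑ u ∈ B * pop A θ * A⁻¹,
        (#(((B * A⁻¹) ×ˢ (A * A⁻¹)).filter (fun p => p.1 * p.2 = u)) : ℝ) := Finset.sum_le_sum h1
    _ = (#(((B * A⁻¹) ×ˢ (A * A⁻¹)).filter (fun p => p.1 * p.2 ∈ B * pop A θ * A⁻¹)) : ℝ) := h2.symm
    _ ≤ #((B * A⁻¹) ×ˢ (A * A⁻¹)) := by exact_mod_cast card_filter_le _ _
    _ = (#(B * A⁻¹) : ℝ) * #(A * A⁻¹) := by rw [card_product]; push_cast; ring

theorem tao_pow (A : Finset Γ) (θ : ℝ) (hθ : 0 ≤ θ) (k : ℕ) :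
    θ ^ k * #(A * pop A θ ^ k * A⁻¹) ≤ (#(A * A⁻¹) : ℝ) ^ (k + 1) := by
  induction k with
  | zero => simp
  | succ k ih =>
    have h1 := tao_step (A * pop A θ ^ k) A θ
    rw [pow_succ (pop A θ) k, ← mul_assoc A]
    calc θ ^ (k + 1) * (#(A * pop A θ ^ k * pop A θ * A⁻¹) : ℝ)
        = θ ^ k * (θ * #(A * pop A θ ^ k * pop A θ * A⁻¹)) := by ring
      _ ≤ θ ^ k * ((#(A * pop A θ ^ k * A⁻¹) : ℝ) * #(A * A⁻¹)) :=
          mul_le_mul_of_nonneg_left h1 (pow_nonneg hθ k)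
      _ = (θ ^ k * #(A * pop A θ ^ k * A⁻¹)) * #(A * A⁻¹) := by ring
      _ ≤ (#(A * A⁻¹) : ℝ) ^ (k + 1) * #(A * A⁻¹) :=
          mul_le_mul_of_nonneg_right ih (Nat.cast_nonneg _)
      _ = _ := by ring

theorem card_pop_pow (A : Finset Γ) (hA : A.Nonempty) (θ : ℝ) (hθ : 0 ≤ θ) (k : ℕ) :
    θ ^ k * #(pop A θ ^ k) ≤ (#(A * A⁻¹) : ℝ) ^ (k + 1) := by
  refine le_trans ?_ (tao_pow A θ hθ k)
  apply mul_le_mul_of_nonneg_left _ (pow_nonneg hθ k)
  obtain ⟨a, ha⟩ := hA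
  have h1 : (pop A θ ^ k).image (fun s => a * s * a⁻¹) ⊆ A * pop A θ ^ k * A⁻¹ := by
    intro x hx
    obtain ⟨s, hs, rfl⟩ := mem_image.1 hx
    exact mul_mem_mul (mul_mem_mul ha hs) (Finset.inv_mem_inv ha)
  have h2 : #((pop A θ ^ k).image (fun s => a * s * a⁻¹)) = #(pop A θ ^ k) := by
    apply card_image_of_injective
    intro x y hxy
    exact mul_left_cancel (mul_right_cancel hxy)
  rw [← h2]
  exact_mod_cast card_le_card h1

/-- one element has many popular quotients -/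
theorem exists_popular (A : Finset Γ) (hA : A.Nonempty) (θ : ℝ)
    (hθ : θ * #(A⁻¹ * A) ≤ (#A : ℝ) ^ 2 / 2) :
    ∃ a ∈ A, (#A : ℝ) / 2 ≤ #(A.filter (fun b => a⁻¹ * b ∈ pop A θ)) := by
  classical
  by_contra hcon
  push Not at hcon
  have h1 : (#((A ×ˢ A).filter (fun p => p.1⁻¹ * p.2 ∉ pop A θ)) : ℝ) ≤ θ * #(A⁻¹ * A) := by
    have h2 : (#((A ×ˢ A).filter (fun p => p.1⁻¹ * p.2 ∉ pop A θ)) : ℝ) =
        ∑ s ∈ (A⁻¹ * A) \ pop A θ, (#((A ×ˢ A).filter (fun p => p.1⁻¹ * p.2 = s)) : ℝ) := by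
      rw [← Nat.cast_sum]
      congr 1
      rw [Finset.card_eq_sum_card_fiberwise (f := fun p : Γ × Γ => p.1⁻¹ * p.2)
        (t := (A⁻¹ * A) \ pop A θ)]
      · refine Finset.sum_congr rfl fun u hu => ?_
        congr 1
        ext p
        simp only [mem_filter]
        constructor
        · rintro ⟨⟨h3, -⟩, h4⟩; exact ⟨h3, h4⟩
        · rintro ⟨h3, h4⟩; exact ⟨⟨h3, h4 ▸ (mem_sdiff.1 hu).2⟩, h4⟩
      · intro p hp
        have hp' := mem_filter.1 (mem_coe.1 hp)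
        refine mem_coe.2 (mem_sdiff.2 ⟨?_, hp'.2⟩)
        exact mul_mem_mul (Finset.inv_mem_inv (mem_product.1 hp'.1).1) (mem_product.1 hp'.1).2
    rw [h2]
    have h3 : ∀ s ∈ (A⁻¹ * A) \ pop A θ,
        (#((A ×ˢ A).filter (fun p => p.1⁻¹ * p.2 = s)) : ℝ) ≤ θ := by
      intro s hs
      rw [mem_sdiff, mem_pop, not_and, not_le] at hs
      have h4 := hs.2 hs.1
      have h5 : #((A ×ˢ A).filter (fun p => p.1⁻¹ * p.2 = s)) ≤
          #(A.filter (fun a => a * s ∈ A)) := by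
        refine card_le_card_of_injOn (fun p => p.1) ?_ ?_
        · intro p hp
          have hp' := mem_filter.1 (mem_coe.1 hp)
          refine mem_coe.2 (mem_filter.2 ⟨(mem_product.1 hp'.1).1, ?_⟩)
          rw [← hp'.2, mul_inv_cancel_left]
          exact (mem_product.1 hp'.1).2
        · intro p hp q hq hpq
          have hp' := (mem_filter.1 (mem_coe.1 hp)).2
          have hq' := (mem_filter.1 (mem_coe.1 hq)).2
          simp only at hpq
          refine Prod.ext hpq ?_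
          rw [hpq] at hp'
          exact mul_left_cancel (hp'.trans hq'.symm)
      have h6 : (#((A ×ˢ A).filter (fun p => p.1⁻¹ * p.2 = s)) : ℝ) ≤
          #(A.filter (fun a => a * s ∈ A)) := by exact_mod_cast h5
      exact h6.trans h4.le
    refine (Finset.sum_le_sum h3).trans ?_
    rw [Finset.sum_const, nsmul_eq_mul, mul_comm]
    by_cases hemp : ((A⁻¹ * A) \ pop A θ).Nonempty
    · obtain ⟨s, hs⟩ := hemp
      have hθ0 : 0 ≤ θ := by
        have := h3 s hs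
        exact le_trans (Nat.cast_nonneg _) this
      apply mul_le_mul_of_nonneg_left _ hθ0
      exact_mod_cast card_le_card sdiff_subset
    · rw [not_nonempty_iff_eq_empty] at hemp
      rw [hemp]
      simp only [card_empty, Nat.cast_zero, mul_zero]
      -- all quotients are popular, so the threshold may be anything: use nonnegativity of the count
      by_contra hneg
      push Not at hneg
      have hcard : (0 : ℝ) < #(A⁻¹ * A) := by
        have : (A⁻¹ * A).Nonempty := by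
          obtain ⟨a, ha⟩ := hA
          exact ⟨a⁻¹ * a, mul_mem_mul (Finset.inv_mem_inv ha) ha⟩
        exact_mod_cast this.card_pos
      -- a negative threshold makes every quotient popular
      have hθneg : θ < 0 := by
        by_contra h
        push Not at h
        have := mul_nonneg h hcard.le
        linarith
      obtain ⟨a, ha⟩ := hA
      have h7 := hcon a ha
      have h8 : A.filter (fun b => a⁻¹ * b ∈ pop A θ) = A := by
        apply filter_true_of_mem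
        intro b hb
        rw [mem_pop]
        exact ⟨mul_mem_mul (Finset.inv_mem_inv ha) hb, hθneg.le.trans (Nat.cast_nonneg _)⟩
      rw [h8] at h7
      have : (0 : ℝ) ≤ #A := Nat.cast_nonneg _
      linarith
  have h9 : (#((A ×ˢ A).filter (fun p => p.1⁻¹ * p.2 ∉ pop A θ)) : ℝ) =
      ∑ a ∈ A, (#(A.filter (fun b => a⁻¹ * b ∉ pop A θ)) : ℝ) := by
    rw [← Nat.cast_sum]
    congr 1
    rw [Finset.card_filter, Finset.sum_product]
    refine Finset.sum_congr rfl fun a _ => ?_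
    rw [Finset.card_filter]
  have h10 : ∀ a ∈ A, (#A : ℝ) / 2 < #(A.filter (fun b => a⁻¹ * b ∉ pop A θ)) := by
    intro a ha
    have h11 := hcon a ha
    have h12 : (#(A.filter (fun b => a⁻¹ * b ∈ pop A θ)) : ℝ) +
        #(A.filter (fun b => a⁻¹ * b ∉ pop A θ)) = #A := by
      exact_mod_cast Finset.card_filter_add_card_filter_not (s := A) (fun b => a⁻¹ * b ∈ pop A θ)
    linarith
  have h13 : (#A : ℝ) * ((#A : ℝ) / 2) < ∑ a ∈ A, (#(A.filter (fun b => a⁻¹ * b ∉ pop A θ)) : ℝ) := by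
    have := Finset.sum_lt_sum_of_nonempty hA h10
    rwa [Finset.sum_const, nsmul_eq_mul] at this
  rw [← h9] at h13
  nlinarith

end Pool.Agent.Work.MP_763b10_co
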