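import Mathlib

set_option autoImplicit false

/-!
The group of homotheties and translations of the plane, and finite sets without three collinear
points.
-/

namespace Pool.Agent.Work.MP_763b10_co

open Finset

/-- no three points on a line -/
def GP (P : Finset (ℝ × ℝ)) : Prop := ∀ a ∈ P, ∀ b ∈ P, ∀ c ∈ P, a ≠ b → a ≠ c → b ≠ c →
  ¬ Collinear ℝ ({a, b, c} : Set (ℝ × ℝ))

theorem GP.line {P : Finset (ℝ × ℝ)} (hP : GP P) {a b c w : ℝ × ℝ} {r s : ℝ} (ha : a ∈ P)
    (hb : b ∈ P) (hc : c ∈ P) (hab : a ≠ b) (hac : a ≠ c) (h1 : b = a + r • w)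
    (h2 : c = a + s • w) : b = c := by
  by_contra hbc
  refine hP a ha b hb c hc hab hac hbc ?_
  rw [collinear_iff_of_mem (p₀ := a) (by simp)]
  refine ⟨w, ?_⟩
  intro p hp
  simp only [Set.mem_insert_iff, Set.mem_singleton_iff] at hp
  rcases hp with rfl | rfl | rfl
  · exact ⟨0, by simp⟩
  · exact ⟨r, by rw [h1]; simp [add_comm]⟩
  · exact ⟨s, by rw [h2]; simp [add_comm]⟩

/-- the map `x ↦ a x + v` -/
@[ext] structure Hy where
  a : ℝˣ
  v : ℝ × ℝ

noncomputable instance : DecidableEq Hy := Classical.decEq _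

namespace Hy

noncomputable instance : One Hy := ⟨⟨1, 0⟩⟩
noncomputable instance : Mul Hy := ⟨fun g h => ⟨g.a * h.a, (g.a : ℝ) • h.v + g.v⟩⟩
noncomputable instance : Inv Hy := ⟨fun g => ⟨g.a⁻¹, -(((g.a⁻¹ : ℝˣ) : ℝ) • g.v)⟩⟩

theorem one_a : (1 : Hy).a = 1 := rfl
theorem one_v : (1 : Hy).v = 0 := rfl
theorem mul_a (g h : Hy) : (g * h).a = g.a * h.a := rfl
theorem mul_v (g h : Hy) : (g * h).v = (g.a : ℝ) • h.v + g.v := rfl
theorem inv_a (g : Hy) : (g⁻¹).a = g.a⁻¹ := rfl
theorem inv_v (g : Hy) : (g⁻¹).v = -(((g.a⁻¹ : ℝˣ) : ℝ) • g.v) := rfl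

noncomputable instance : Group Hy := Group.ofLeftAxioms
  (by
    intro g h k
    refine Hy.ext ?_ ?_
    · simp only [mul_a, mul_assoc]
    · simp only [mul_a, mul_v, Units.val_mul, mul_smul, smul_add, add_assoc])
  (by
    intro g
    refine Hy.ext ?_ ?_
    · simp only [mul_a, one_a, one_mul]
    · simp only [mul_v, one_a, one_v, Units.val_one, one_smul, add_zero])
  (by
    intro g
    refine Hy.ext ?_ ?_
    · simp only [mul_a, inv_a, one_a, inv_mul_cancel]
    · simp only [mul_v, inv_a, inv_v, one_v, add_neg_cancel])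

noncomputable instance : MulAction Hy (ℝ × ℝ) where
  smul g x := (g.a : ℝ) • x + g.v
  one_smul x := by
    show ((1 : Hy).a : ℝ) • x + (1 : Hy).v = x
    simp only [one_a, one_v, Units.val_one, one_smul, add_zero]
  mul_smul g h x := by
    show ((g * h).a : ℝ) • x + (g * h).v = (g.a : ℝ) • ((h.a : ℝ) • x + h.v) + g.v
    simp only [mul_a, mul_v, Units.val_mul, mul_smul, smul_add, add_assoc]

theorem smul_def (g : Hy) (x : ℝ × ℝ) : g • x = (g.a : ℝ) • x + g.v := rfl

/-- the translation by `t` -/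
def tr (t : ℝ × ℝ) : Hy := ⟨1, t⟩

theorem tr_smul (t x : ℝ × ℝ) : tr t • x = x + t := by
  rw [smul_def]
  show ((1 : ℝˣ) : ℝ) • x + t = x + t
  rw [Units.val_one, one_smul]

theorem eq_tr (g : Hy) (h : g.a = 1) : g = tr g.v := Hy.ext h rfl

theorem conj_tr (s : Hy) (t : ℝ × ℝ) : s * tr t * s⁻¹ = tr ((s.a : ℝ) • t) := by
  refine Hy.ext ?_ ?_
  · simp only [mul_a, inv_a, tr, mul_one, mul_inv_cancel]
  · simp only [mul_a, mul_v, inv_v, tr, mul_one, smul_neg, smul_smul]
    rw [← Units.val_mul, mul_inv_cancel, Units.val_one, one_smul]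
    abel

theorem commutator_a (s t : Hy) : (s * t * s⁻¹ * t⁻¹).a = 1 := by
  simp only [mul_a, inv_a]
  rw [mul_comm s.a t.a, mul_inv_cancel_right, mul_inv_cancel]

/-- the difference of two points moved by maps of the same ratio to the same point -/
theorem same_ratio (s s' : Hy) (h : s.a = s'.a) (x : ℝ × ℝ) :
    s⁻¹ * s' = tr (s⁻¹ • x - s'⁻¹ • x) := by
  refine Hy.ext ?_ ?_
  · simp only [mul_a, inv_a, tr, h, inv_mul_cancel]
  · simp only [mul_v, inv_a, inv_v, tr, smul_def, h]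
    module

/-- a map which is not a translation has exactly one fixed point -/
theorem fixed (g : Hy) (h : g.a ≠ 1) : ∃ z : ℝ × ℝ, ∀ x, g • x = x ↔ x = z := by
  have h1 : (g.a : ℝ) ≠ 1 := fun hh => h (Units.ext hh)
  have h2 : (1 - (g.a : ℝ)) ≠ 0 := sub_ne_zero.2 (Ne.symm h1)
  refine ⟨(1 - (g.a : ℝ))⁻¹ • g.v, fun x => ?_⟩
  rw [smul_def]
  constructor
  · intro hx
    have h3 : (1 - (g.a : ℝ)) • x = g.v := by
      rw [sub_smul, one_smul]
      nth_rewrite 1 [← hx]
      abel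
    rw [← h3, smul_smul, inv_mul_cancel₀ h2, one_smul]
  · intro hx
    have h3 : (1 - (g.a : ℝ)) • x = g.v := by
      rw [hx, smul_smul, mul_inv_cancel₀ h2, one_smul]
    rw [← h3, sub_smul, one_smul]
    abel

/-- maps which fix `z` move a point along the line through `z` -/
theorem smul_of_fixed (g : Hy) (z x : ℝ × ℝ) (h : g • z = z) : g • x = z + (g.a : ℝ) • (x - z) := by
  rw [smul_def] at h ⊢
  have h1 : g.v = z - (g.a : ℝ) • z := by rw [← h]; abel_nf; rw [h]; abel
  rw [h1]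
  module

theorem smul_sub_smul (g : Hy) (x y : ℝ × ℝ) : g • x - g • y = (g.a : ℝ) • (x - y) := by
  rw [smul_def, smul_def]
  module

/-- a map is determined by two values -/
theorem eq_of_two (g h : Hy) (x y : ℝ × ℝ) (hxy : x ≠ y) (hx : g • x = h • x) (hy : g • y = h • y) :
    g = h := by
  have h1 : (g.a : ℝ) • (x - y) = (h.a : ℝ) • (x - y) := by
    rw [← smul_sub_smul, ← smul_sub_smul, hx, hy]
  have h2 : (g.a : ℝ) = h.a := by
    have h3 : ((g.a : ℝ) - h.a) • (x - y) = 0 := by rw [sub_smul, h1, sub_self]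
    rcases smul_eq_zero.1 h3 with h4 | h4
    · linarith
    · exact absurd (sub_eq_zero.1 h4) hxy
  refine Hy.ext (Units.ext h2) ?_
  rw [smul_def, smul_def, h2] at hx
  exact add_left_cancel hx

end Hy

end Pool.Agent.Work.MP_763b10_co
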