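import Mathlib

set_option autoImplicit false

/-!
Three term progressions in finite sets of small doubling in the plane, from the triangle removal
lemma.
-/

namespace Pool.Agent.Work.MP_763b10_co

open Finset SimpleGraph TripartiteFromTriangles
open scoped Pointwise

/-- A large finite set of vectors with `|A + A - A| ≤ K |A|` contains a nontrivial three term
arithmetic progression. -/
theorem exists_threeAP (K : ℝ) (hK : 1 ≤ K) : ∃ m₀ : ℕ, ∀ A : Finset (ℝ × ℝ), m₀ ≤ #A →
    (#(A + A - A) : ℝ) ≤ K * #A → ¬ ThreeAPFree (A : Set (ℝ × ℝ)) := by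
  classical
  obtain ⟨ε, hε⟩ : ∃ ε : ℝ, ε = 1 / (9 * K ^ 2) := ⟨_, rfl⟩
  have hε0 : 0 < ε := by rw [hε]; positivity
  have hb0 := triangleRemovalBound_pos hε0
  refine ⟨⌊1 / triangleRemovalBound ε⌋₊ + 1, fun A hm hA hfree => ?_⟩
  have hm0 : 0 < #A := by omega
  obtain ⟨a₀, ha₀⟩ := Finset.card_pos.1 hm0
  -- the three classes
  let U₀ : Finset (ℝ × ℝ) := -A
  let U₁ : Finset (ℝ × ℝ) := A - A
  let U₂ : Finset (ℝ × ℝ) := A + A - A
  have h0 : ∀ a ∈ A, -a ∈ U₀ := fun a ha => Finset.neg_mem_neg ha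
  have h1 : ∀ a ∈ A, ∀ b ∈ A, b - a ∈ U₁ := fun a ha b hb => Finset.sub_mem_sub hb ha
  have h2 : ∀ a ∈ A, ∀ b ∈ A, b + b - a ∈ U₂ := fun a ha b hb =>
    Finset.sub_mem_sub (Finset.add_mem_add hb hb) ha
  let f : {p : (ℝ × ℝ) × (ℝ × ℝ) // p ∈ A ×ˢ A} →
      {x // x ∈ U₀} × {x // x ∈ U₁} × {x // x ∈ U₂} := fun p =>
    (⟨-p.1.1, h0 _ (mem_product.1 p.2).1⟩,
     ⟨p.1.2 - p.1.1, h1 _ (mem_product.1 p.2).1 _ (mem_product.1 p.2).2⟩,
     ⟨p.1.2 + p.1.2 - p.1.1, h2 _ (mem_product.1 p.2).1 _ (mem_product.1 p.2).2⟩)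
  let t : Finset ({x // x ∈ U₀} × {x // x ∈ U₁} × {x // x ∈ U₂}) := univ.image f
  have hf : Function.Injective f := by
    intro p q hpq
    have e1 : -p.1.1 = -q.1.1 := congrArg (fun x => (x.1 : ℝ × ℝ)) hpq
    have e2 : p.1.2 - p.1.1 = q.1.2 - q.1.1 := congrArg (fun x => (x.2.1 : ℝ × ℝ)) hpq
    have e3 : p.1.1 = q.1.1 := neg_injective e1
    rw [e3] at e2
    exact Subtype.ext (Prod.ext e3 (sub_left_injective e2))
  have hcard : #t = #A * #A := by
    rw [Finset.card_image_of_injective _ hf, Finset.card_univ, Fintype.card_coe, card_product]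
  have hmem : ∀ x : {x // x ∈ U₀} × {x // x ∈ U₁} × {x // x ∈ U₂}, x ∈ t ↔
      ∃ a ∈ A, ∃ b ∈ A, (x.1 : ℝ × ℝ) = -a ∧ (x.2.1 : ℝ × ℝ) = b - a ∧
        (x.2.2 : ℝ × ℝ) = b + b - a := by
    intro x
    rw [mem_image]
    constructor
    · rintro ⟨p, -, rfl⟩
      exact ⟨p.1.1, (mem_product.1 p.2).1, p.1.2, (mem_product.1 p.2).2, rfl, rfl, rfl⟩
    · rintro ⟨a, ha, b, hb, e1, e2, e3⟩
      refine ⟨⟨(a, b), mem_product.2 ⟨ha, hb⟩⟩, mem_univ _, ?_⟩
      refine Prod.ext (Subtype.ext e1.symm) (Prod.ext (Subtype.ext e2.symm) (Subtype.ext e3.symm))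
  have hdouble : ∀ u v : ℝ × ℝ, u + u = v + v → u = v := by
    intro u v h
    have e1 := congrArg Prod.fst h
    have e2 := congrArg Prod.snd h
    simp only [Prod.fst_add, Prod.snd_add] at e1 e2
    exact Prod.ext (by linarith) (by linarith)
  have hED : ExplicitDisjoint t := by
    refine ⟨?_, ?_, ?_⟩
    · intro x y z x' h h'
      obtain ⟨a, ha, b, hb, e1, e2, e3⟩ := (hmem _).1 h
      obtain ⟨a', ha', b', hb', e1', e2', e3'⟩ := (hmem _).1 h'
      simp only at e1 e2 e3 e1' e2' e3'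
      have k1 : b - a = b' - a' := e2.symm.trans e2'
      have k2 : b + b - a = b' + b' - a' := e3.symm.trans e3'
      have k3 : b = b' := by
        have : b = (b + b - a) - (b - a) := by abel
        rw [this, k1, k2]; abel
      have k4 : a = a' := by rw [k3] at k1; exact sub_right_injective k1
      exact Subtype.ext (by rw [e1, e1', k4])
    · intro x y z y' h h'
      obtain ⟨a, ha, b, hb, e1, e2, e3⟩ := (hmem _).1 h
      obtain ⟨a', ha', b', hb', e1', e2', e3'⟩ := (hmem _).1 h'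
      simp only at e1 e2 e3 e1' e2' e3'
      have k1 : a = a' := neg_injective (e1.symm.trans e1')
      have k2 : b + b - a = b' + b' - a' := e3.symm.trans e3'
      have k3 : b = b' := by
        apply hdouble
        rw [k1] at k2
        exact sub_left_injective k2
      exact Subtype.ext (by rw [e2, e2', k1, k3])
    · intro x y z z' h h'
      obtain ⟨a, ha, b, hb, e1, e2, e3⟩ := (hmem _).1 h
      obtain ⟨a', ha', b', hb', e1', e2', e3'⟩ := (hmem _).1 h'
      simp only at e1 e2 e3 e1' e2' e3'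
      have k1 : a = a' := neg_injective (e1.symm.trans e1')
      have k2 : b - a = b' - a' := e2.symm.trans e2'
      have k3 : b = b' := by rw [k1] at k2; exact sub_left_injective k2
      exact Subtype.ext (by rw [e3, e3', k1, k3])
  have hNA : NoAccidental t := by
    refine ⟨?_⟩
    intro x x' y y' z z' h h' h''
    obtain ⟨a, ha, b, hb, e1, e2, e3⟩ := (hmem _).1 h
    obtain ⟨a', ha', b', hb', e1', e2', e3'⟩ := (hmem _).1 h'
    obtain ⟨a'', ha'', b'', hb'', e1'', e2'', e3''⟩ := (hmem _).1 h''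
    simp only at e1 e2 e3 e1' e2' e3' e1'' e2'' e3''
    -- x = -a' = -a'', y = b - a = b'' - a'', z = b + b - a = b' + b' - a'
    have k1 : a' = a'' := neg_injective (e1'.symm.trans e1'')
    have k2 : b - a = b'' - a'' := e2.symm.trans e2''
    have k3 : b + b - a = b' + b' - a' := e3.symm.trans e3'
    have k4 : b'' + b = b' + b' := by
      have i1 : b'' + b = (b'' - a'') + (b + b - a) - (b - a) + a'' := by abel
      rw [i1, ← k2, k3, k1]; abel
    have k5 : b'' = b' := hfree (mem_coe.2 hb'') (mem_coe.2 hb') (mem_coe.2 hb) k4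
    have k6 : b = b' := by rw [k5] at k4; exact add_left_cancel k4
    left
    have k7 : a = a'' := by
      rw [k6, k5] at k2
      exact sub_right_injective k2
    exact Subtype.ext (by rw [e1'', e1, k7])
  -- sizes of the classes
  have c0 : (Fintype.card {x // x ∈ U₀} : ℝ) = #A := by
    rw [Fintype.card_coe, Finset.card_neg]
  have c2 : (Fintype.card {x // x ∈ U₂} : ℝ) ≤ K * #A := by
    rw [Fintype.card_coe]; exact hA
  have c1 : (Fintype.card {x // x ∈ U₁} : ℝ) ≤ K * #A := by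
    rw [Fintype.card_coe]
    refine le_trans ?_ hA
    have i1 : #(A - A) ≤ #(A + A - A) := by
      have i2 : (A - A).image (fun x => a₀ + x) ⊆ A + A - A := by
        intro y hy
        obtain ⟨x, hx, rfl⟩ := mem_image.1 hy
        obtain ⟨b, hb, c, hc, rfl⟩ := mem_sub.1 hx
        have : a₀ + (b - c) = a₀ + b - c := by abel
        rw [this]
        exact Finset.sub_mem_sub (Finset.add_mem_add ha₀ hb) hc
      rw [← Finset.card_image_of_injective (A - A) (add_right_injective a₀)]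
      exact card_le_card i2
    exact_mod_cast i1
  have hm0' : (0 : ℝ) < #A := by exact_mod_cast hm0
  have hfar : (graph t).FarFromTriangleFree ε := by
    apply farFromTriangleFree
    rw [hcard]
    push_cast
    have i1 : (Fintype.card {x // x ∈ U₀} : ℝ) + (Fintype.card {x // x ∈ U₁} : ℝ) +
        (Fintype.card {x // x ∈ U₂} : ℝ) ≤ 3 * K * #A := by
      rw [c0]; nlinarith
    have i2 : 0 ≤ (Fintype.card {x // x ∈ U₀} : ℝ) + (Fintype.card {x // x ∈ U₁} : ℝ) +
        (Fintype.card {x // x ∈ U₂} : ℝ) := by positivity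
    have i3 : ε * ((Fintype.card {x // x ∈ U₀} : ℝ) + (Fintype.card {x // x ∈ U₁} : ℝ) +
        (Fintype.card {x // x ∈ U₂} : ℝ)) ^ 2 ≤ ε * (3 * K * #A) ^ 2 := by
      apply mul_le_mul_of_nonneg_left _ hε0.le
      exact pow_le_pow_left₀ i2 i1 2
    refine i3.trans (le_of_eq ?_)
    rw [hε]
    have hK0 : K ≠ 0 := by positivity
    field_simp
    ring
  have hcount := hfar.le_card_cliqueFinset
  rw [card_triangles, hcard] at hcount
  have hbig : (#A : ℝ) ^ 3 ≤ (Fintype.card ({x // x ∈ U₀} ⊕ {x // x ∈ U₁} ⊕ {x // x ∈ U₂}) : ℝ) ^ 3 := by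
    apply pow_le_pow_left₀ hm0'.le
    rw [Fintype.card_sum]
    push_cast
    rw [c0]
    have : (0 : ℝ) ≤ (Fintype.card ({x // x ∈ U₁} ⊕ {x // x ∈ U₂}) : ℝ) := by positivity
    linarith
  have hfin : triangleRemovalBound ε * (#A : ℝ) ^ 3 ≤ #A * #A := by
    refine (mul_le_mul_of_nonneg_left hbig hb0.le).trans ?_
    exact_mod_cast hcount
  have hlast : triangleRemovalBound ε * (#A : ℝ) ≤ 1 := by
    have i4 : triangleRemovalBound ε * (#A : ℝ) * ((#A : ℝ) * #A) ≤ 1 * ((#A : ℝ) * #A) := by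
      have i5 : triangleRemovalBound ε * (#A : ℝ) * ((#A : ℝ) * #A) =
          triangleRemovalBound ε * (#A : ℝ) ^ 3 := by ring
      rw [i5, one_mul]
      exact hfin
    exact le_of_mul_le_mul_right i4 (by positivity)
  have hlt : 1 / triangleRemovalBound ε < (⌊1 / triangleRemovalBound ε⌋₊ : ℝ) + 1 := Nat.lt_floor_add_one _
  have hm' : (⌊1 / triangleRemovalBound ε⌋₊ : ℝ) + 1 ≤ #A := by exact_mod_cast hm
  have : 1 / triangleRemovalBound ε < #A := hlt.trans_le hm'
  rw [div_lt_iff₀ hb0] at this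
  linarith

end Pool.Agent.Work.MP_763b10_co
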