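import Mathlib
import Pool.Agent.Work.MP_763b10_co.Roth
import Pool.Agent.Work.MP_763b10_co.Grp
import Pool.Agent.Work.MP_763b10_co.Hy

set_option autoImplicit false

/-!
A large finite set without three collinear points is not a large part of an orbit of an approximate
group of homotheties.
-/

namespace Pool.Agent.Work.MP_763b10_co

open Finset
open scoped Pointwise

theorem GP.threeAPFree {P Q : Finset (ℝ × ℝ)} (hP : GP P) (hQ : Q ⊆ P) :
    ThreeAPFree (Q : Set (ℝ × ℝ)) := by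
  intro a ha b hb c hc h
  by_contra hab
  have hc' : c = a + (2 : ℝ) • (b - a) := by
    have : c = b + b - a := by rw [← h]; abel
    rw [this]; module
  have hac : a ≠ c := by
    intro h1
    rw [← h1] at h
    apply hab
    have e1 := congrArg Prod.fst h
    have e2 := congrArg Prod.snd h
    simp only [Prod.fst_add, Prod.snd_add] at e1 e2
    exact Prod.ext (by linarith) (by linarith)
  have hbc := hP.line (w := b - a) (r := 1) (s := 2) (hQ (mem_coe.1 ha)) (hQ (mem_coe.1 hb))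
    (hQ (mem_coe.1 hc)) hab hac (by module) hc'
  apply hab
  rw [← hbc] at h
  exact add_right_cancel h

/-- at most two points of `P` on the line through `z` with direction `w` -/
theorem GP.card_line {P : Finset (ℝ × ℝ)} (hP : GP P) (z w : ℝ × ℝ) (T : Finset (ℝ × ℝ))
    (hT : T ⊆ P) (h : ∀ p ∈ T, ∃ r : ℝ, p = z + r • w) : #T ≤ 2 := by
  by_contra hlt
  push Not at hlt
  obtain ⟨a, b, c, ha, hb, hc, hab, hac, hbc⟩ := Finset.two_lt_card_iff.1 hlt
  obtain ⟨r, hr⟩ := h a ha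
  obtain ⟨s, hs⟩ := h b hb
  obtain ⟨u, hu⟩ := h c hc
  refine hbc (hP.line (w := w) (r := s - r) (s := u - r) (hT ha) (hT hb) (hT hc) hab hac ?_ ?_)
  · rw [hs, hr]; module
  · rw [hu, hr]; module

theorem no_approximate (κ K : ℝ) (hκ : 0 < κ) (hK : 1 ≤ K) : ∃ N : ℕ, ∀ P : Finset (ℝ × ℝ), GP P →
    N ≤ #P → ∀ (x : ℝ × ℝ) (A : Finset Hy), κ * #P ≤ #A →
      (∀ a ∈ A, a⁻¹ • x ∈ P) → Set.InjOn (fun a : Hy => a⁻¹ • x) (A : Set Hy) →
      (#(A * A⁻¹) : ℝ) ≤ K * #P → (#(A⁻¹ * A) : ℝ) ≤ K * #P → False := by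
  -- constants
  obtain ⟨c, hc⟩ : ∃ c : ℕ → ℝ, c = fun k => K ^ (k + 1) * (2 * K / κ ^ 2) ^ k := ⟨_, rfl⟩
  have hc0 : ∀ k, 0 < c k := by intro k; rw [hc]; positivity
  obtain ⟨L, hL⟩ : ∃ L : ℝ, L = max 1 (4 * c 7 / κ) := ⟨_, rfl⟩
  have hL1 : 1 ≤ L := hL ▸ le_max_left _ _
  obtain ⟨K', hK'⟩ : ∃ K' : ℝ, K' = max 1 (c 3 * (2 * L / κ)) := ⟨_, rfl⟩
  obtain ⟨m₀, hm₀⟩ := exists_threeAP K' (hK' ▸ le_max_left _ _)
  refine ⟨⌈(4 / κ + 2) * (2 * K / κ ^ 2)⌉₊ + ⌈m₀ * (2 * L / κ)⌉₊ + ⌈6 / κ⌉₊ + 1, ?_⟩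
  intro P hP hN x A hA hAP hinj hAA hAA'
  obtain ⟨n, hn⟩ : ∃ n : ℝ, n = #P := ⟨_, rfl⟩
  rw [← hn] at hA hAA hAA'
  have hN' : ((⌈(4 / κ + 2) * (2 * K / κ ^ 2)⌉₊ : ℕ) : ℝ) + ((⌈m₀ * (2 * L / κ)⌉₊ : ℕ) : ℝ) +
      ((⌈6 / κ⌉₊ : ℕ) : ℝ) + 1 ≤ n := by rw [hn]; exact_mod_cast hN
  have hb1 : (4 / κ + 2) * (2 * K / κ ^ 2) ≤ n := by
    have := Nat.le_ceil ((4 / κ + 2) * (2 * K / κ ^ 2))
    have h2 : (0 : ℝ) ≤ ((⌈m₀ * (2 * L / κ)⌉₊ : ℕ) : ℝ) := Nat.cast_nonneg _
    have h3 : (0 : ℝ) ≤ ((⌈6 / κ⌉₊ : ℕ) : ℝ) := Nat.cast_nonneg _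
    linarith
  have hb2 : m₀ * (2 * L / κ) ≤ n := by
    have := Nat.le_ceil (m₀ * (2 * L / κ))
    have h2 : (0 : ℝ) ≤ ((⌈(4 / κ + 2) * (2 * K / κ ^ 2)⌉₊ : ℕ) : ℝ) := Nat.cast_nonneg _
    have h3 : (0 : ℝ) ≤ ((⌈6 / κ⌉₊ : ℕ) : ℝ) := Nat.cast_nonneg _
    linarith
  have hb3 : 6 / κ ≤ n := by
    have := Nat.le_ceil (6 / κ)
    have h2 : (0 : ℝ) ≤ ((⌈(4 / κ + 2) * (2 * K / κ ^ 2)⌉₊ : ℕ) : ℝ) := Nat.cast_nonneg _
    have h3 : (0 : ℝ) ≤ ((⌈m₀ * (2 * L / κ)⌉₊ : ℕ) : ℝ) := Nat.cast_nonneg _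
    linarith
  have hn0 : 0 < n := by have := div_pos (by norm_num : (0 : ℝ) < 6) hκ; linarith
  -- the popular quotients
  obtain ⟨θ, hθ⟩ : ∃ θ : ℝ, θ = κ ^ 2 / (2 * K) * n := ⟨_, rfl⟩
  have hθ0 : 0 < θ := by rw [hθ]; positivity
  have hA0 : (0 : ℝ) < #A := by have := mul_pos hκ hn0; linarith
  have hAne : A.Nonempty := by
    rw [← Finset.card_pos]; exact_mod_cast hA0
  have hθA : θ * #(A⁻¹ * A) ≤ (#A : ℝ) ^ 2 / 2 := by
    calc θ * #(A⁻¹ * A) ≤ θ * (K * n) := mul_le_mul_of_nonneg_left hAA' hθ0.le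
      _ = (κ * n) ^ 2 / 2 := by rw [hθ]; field_simp
      _ ≤ (#A : ℝ) ^ 2 / 2 := by
          have := pow_le_pow_left₀ (by positivity) hA 2
          linarith
  obtain ⟨S, hS⟩ : ∃ S : Finset Hy, S = pop A θ := ⟨_, rfl⟩
  obtain ⟨a, ha, hB⟩ := exists_popular A hAne θ hθA
  rw [← hS] at hB
  have hSinv : ∀ s ∈ S, s⁻¹ ∈ S := by
    intro s hs; rw [hS] at hs ⊢; exact pop_inv hs
  have hcard : ∀ k, (#(S ^ k) : ℝ) ≤ c k * n := by
    intro k
    have h1 := card_pop_pow A hAne θ hθ0.le k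
    rw [← hS] at h1
    have h2 : θ ^ k * #(S ^ k) ≤ (K * n) ^ (k + 1) := by
      refine h1.trans ?_
      exact pow_le_pow_left₀ (Nat.cast_nonneg _) hAA _
    have h3 : θ ^ k * (c k * n) = (K * n) ^ (k + 1) := by
      rw [hθ, hc]
      have h4 : (κ ^ 2 / (2 * K) * n) ^ k * (K ^ (k + 1) * (2 * K / κ ^ 2) ^ k * n) =
          ((κ ^ 2 / (2 * K)) * (2 * K / κ ^ 2)) ^ k * (K ^ (k + 1) * n ^ (k + 1)) := by
        rw [mul_pow, mul_pow]; ring
      rw [h4]
      have h5 : (κ ^ 2 / (2 * K)) * (2 * K / κ ^ 2) = 1 := by field_simp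
      rw [h5, one_pow, one_mul, mul_pow]
    rw [← h3] at h2
    exact le_of_mul_le_mul_left h2 (pow_pos hθ0 k)
  have hrich : ∀ s ∈ S, θ ≤ #(P.filter (fun p => s⁻¹ • p ∈ P)) := by
    intro s hs
    rw [hS] at hs
    refine (mem_pop.1 hs).2.trans ?_
    have : #(A.filter (fun b => b * s ∈ A)) ≤ #(P.filter (fun p => s⁻¹ • p ∈ P)) := by
      refine card_le_card_of_injOn (fun b => b⁻¹ • x) ?_ ?_
      · intro b hb
        have hb' := mem_filter.1 (mem_coe.1 hb)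
        refine mem_coe.2 (mem_filter.2 ⟨hAP b hb'.1, ?_⟩)
        have := hAP _ hb'.2
        rwa [mul_inv_rev, mul_smul] at this
      · intro b hb b' hb' h
        exact hinj (mem_filter.1 (mem_coe.1 hb)).1 (mem_filter.1 (mem_coe.1 hb')).1 h
    exact_mod_cast this
  obtain ⟨B, hBdef⟩ : ∃ B : Finset Hy, B = A.filter (fun b => a⁻¹ * b ∈ S) := ⟨_, rfl⟩
  rw [← hBdef] at hB
  have hBn : κ * n / 2 ≤ #B := by linarith
  have hBA : ∀ b ∈ B, b ∈ A := by intro b hb; rw [hBdef] at hb; exact (mem_filter.1 hb).1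
  have hBS : ∀ b ∈ B, a⁻¹ * b ∈ S := by intro b hb; rw [hBdef] at hb; exact (mem_filter.1 hb).2
  have hBSc : (#B : ℝ) ≤ #S := by
    have : #B ≤ #S := by
      refine card_le_card_of_injOn (fun b => a⁻¹ * b) (fun b hb => mem_coe.2 (hBS b (mem_coe.1 hb))) ?_
      intro b _ b' _ h
      exact mul_left_cancel h
    exact_mod_cast this
  have hS3 : (3 : ℝ) ≤ #S := by
    have : 3 ≤ κ * n / 2 := by
      rw [div_le_iff₀ hκ] at hb3
      linarith
    linarith
  have h1S : (1 : Hy) ∈ S := by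
    rw [hS, mem_pop]
    refine ⟨mem_mul.2 ⟨a⁻¹, Finset.inv_mem_inv ha, a, ha, inv_mul_cancel a⟩, ?_⟩
    have h1 : A.filter (fun b => b * 1 ∈ A) = A := filter_true_of_mem (fun b hb => by rwa [mul_one])
    rw [h1]
    have h2 : (#A : ℝ) ≤ n := by
      rw [hn]
      have : #A ≤ #P := card_le_card_of_injOn (fun b => b⁻¹ • x)
        (fun b hb => mem_coe.2 (hAP b (mem_coe.1 hb))) hinj
      exact_mod_cast this
    have h3 : κ ≤ 1 := by
      have : κ * n ≤ 1 * n := by linarith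
      exact le_of_mul_le_mul_right this hn0
    calc θ = κ * n * (κ / (2 * K)) := by rw [hθ]; ring
      _ ≤ κ * n * 1 := by
          apply mul_le_mul_of_nonneg_left _ (by positivity)
          rw [div_le_one (by positivity)]; linarith
      _ ≤ #A := by linarith
  have hSmul2 : ∀ s ∈ S, ∀ t ∈ S, s * t ∈ S ^ 2 := by
    intro s hs t ht
    rw [pow_two]; exact mul_mem_mul hs ht
  have hmul : ∀ k l : ℕ, ∀ g ∈ S ^ k, ∀ h ∈ S ^ l, g * h ∈ S ^ (k + l) := by
    intro k l g hg h hh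
    rw [pow_add]; exact mul_mem_mul hg hh
  have hone : ∀ s ∈ S, s ∈ S ^ 1 := by intro s hs; rwa [pow_one]
  by_cases hcase : ∀ g ∈ S ^ 4, g.a = 1 → g = 1
  · -- no translations: all popular quotients fix one point
    obtain ⟨h, hh, hh1⟩ : ∃ h ∈ S, h ≠ 1 := by
      by_contra hno
      push Not at hno
      have : S ⊆ {1} := by intro s hs; rw [mem_singleton]; exact hno s hs
      have := card_le_card this
      rw [card_singleton] at this
      have : (#S : ℝ) ≤ 1 := by exact_mod_cast this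
      linarith
    have hha : h.a ≠ 1 := by
      intro h2
      refine hh1 (hcase h ?_ h2)
      have := hmul 1 3 h (hone h hh) 1 (by
        have := hmul 1 2 1 (hone 1 h1S) 1 (by
          have := hSmul2 1 h1S 1 h1S
          rwa [mul_one] at this)
        rwa [mul_one] at this)
      rwa [mul_one] at this
    obtain ⟨z, hz⟩ := Hy.fixed h hha
    have hfix : ∀ s ∈ S, s • z = z := by
      intro s hs
      have hcomm : h * s = s * h := by
        have h2 : h * s * h⁻¹ * s⁻¹ ∈ S ^ 4 := by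
          have := hmul 2 2 (h * s) (hSmul2 h hh s hs) (h⁻¹ * s⁻¹)
            (hSmul2 _ (hSinv h hh) _ (hSinv s hs))
          rwa [← mul_assoc] at this
        have h3 := hcase _ h2 (Hy.commutator_a h s)
        have h4 : h * s = h * s * h⁻¹ * s⁻¹ * (s * h) := by group
        rw [h4, h3, one_mul]
      rw [← hz, ← mul_smul, hcomm, mul_smul, (hz z).2 rfl]
    -- count
    have hsum1 : (#S : ℝ) * θ ≤ ∑ s ∈ S, (#(P.filter (fun p => s⁻¹ • p ∈ P)) : ℝ) := by
      have := Finset.sum_le_sum hrich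
      rwa [Finset.sum_const, nsmul_eq_mul] at this
    have hswap : ∑ s ∈ S, (#(P.filter (fun p => s⁻¹ • p ∈ P)) : ℝ) =
        ∑ p ∈ P, (#(S.filter (fun s => s⁻¹ • p ∈ P)) : ℝ) := by
      simp only [Finset.card_filter, Nat.cast_sum]
      rw [Finset.sum_comm]
    have hp : ∀ p ∈ P, (#(S.filter (fun s => s⁻¹ • p ∈ P)) : ℝ) ≤ 2 + (if p = z then (#S : ℝ) else 0) := by
      intro p hpP
      by_cases hpz : p = z
      · rw [if_pos hpz]
        have : (#(S.filter (fun s => s⁻¹ • p ∈ P)) : ℝ) ≤ #S := by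
          exact_mod_cast card_filter_le _ _
        linarith
      · rw [if_neg hpz, add_zero]
        have h2 : #((S.filter (fun s => s⁻¹ • p ∈ P)).image (fun s => s⁻¹ • p)) ≤ 2 := by
          refine hP.card_line z (p - z) _ ?_ ?_
          · intro y hy
            obtain ⟨s, hs, rfl⟩ := mem_image.1 hy
            exact (mem_filter.1 hs).2
          · intro y hy
            obtain ⟨s, hs, rfl⟩ := mem_image.1 hy
            have hs' := hSinv s (mem_filter.1 hs).1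
            exact ⟨_, Hy.smul_of_fixed _ _ _ (hfix _ hs')⟩
        have h3 : #((S.filter (fun s => s⁻¹ • p ∈ P)).image (fun s => s⁻¹ • p)) =
            #(S.filter (fun s => s⁻¹ • p ∈ P)) := by
          apply Finset.card_image_of_injOn
          intro s hs s' hs' hss
          have hs1 := hfix _ (hSinv s (mem_filter.1 (mem_coe.1 hs)).1)
          have hs2 := hfix _ (hSinv s' (mem_filter.1 (mem_coe.1 hs')).1)
          have := Hy.eq_of_two s⁻¹ s'⁻¹ p z hpz hss (hs1.trans hs2.symm)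
          exact inv_injective this
        rw [h3] at h2
        exact_mod_cast h2
    have hsum2 : ∑ p ∈ P, (#(S.filter (fun s => s⁻¹ • p ∈ P)) : ℝ) ≤ 2 * n + #S := by
      refine (Finset.sum_le_sum hp).trans ?_
      rw [Finset.sum_add_distrib, Finset.sum_const, nsmul_eq_mul, ← hn, Finset.sum_ite_eq']
      have : (if z ∈ P then (#S : ℝ) else 0) ≤ #S := by
        split_ifs
        · exact le_rfl
        · exact Nat.cast_nonneg _
      linarith
    have hfin : (#S : ℝ) * (θ - 1) ≤ 2 * n := by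
      have : (#S : ℝ) * θ ≤ 2 * n + #S := hsum1.trans (hswap ▸ hsum2)
      linarith
    have hθ1 : 4 / κ + 2 ≤ θ := by
      rw [hθ]
      have : (4 / κ + 2) * (2 * K / κ ^ 2) * (κ ^ 2 / (2 * K)) ≤ n * (κ ^ 2 / (2 * K)) :=
        mul_le_mul_of_nonneg_right hb1 (by positivity)
      have h5 : (4 / κ + 2) * (2 * K / κ ^ 2) * (κ ^ 2 / (2 * K)) = 4 / κ + 2 := by
        field_simp
      rw [h5] at this
      linarith
    have h6 : κ * n / 2 * (4 / κ + 1) ≤ (#S : ℝ) * (θ - 1) :=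
      mul_le_mul (by linarith) (by linarith) (by positivity) (by positivity)
    have h7 : κ * n / 2 * (4 / κ + 1) = 2 * n + κ * n / 2 := by field_simp; ring
    have h8 : 0 < κ * n / 2 := by positivity
    linarith
  · -- a translation
    push Not at hcase
    obtain ⟨g, hg, hga, hg1⟩ := hcase
    obtain ⟨t, ht⟩ : ∃ t, t = g.v := ⟨_, rfl⟩
    have hgt : g = Hy.tr t := by rw [ht]; exact Hy.eq_tr g hga
    have ht0 : t ≠ 0 := by
      intro h0
      apply hg1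
      rw [hgt, h0]
      rfl
    obtain ⟨q, hq⟩ : ∃ q, q = a⁻¹ • x := ⟨_, rfl⟩
    have hpB : ∀ b ∈ B, b⁻¹ • x = (a⁻¹ * b)⁻¹ • q := by
      intro b _
      rw [hq, mul_inv_rev, inv_inv, mul_smul, smul_inv_smul]
    have hinjB : Set.InjOn (fun b : Hy => b⁻¹ • x) (B : Set Hy) := by
      intro b hb b' hb' h
      exact hinj (mem_coe.2 (hBA b (mem_coe.1 hb))) (mem_coe.2 (hBA b' (mem_coe.1 hb'))) h
    obtain ⟨M, hM⟩ : ∃ M : Finset ℝˣ, M = S.image (fun s => s.a) := ⟨_, rfl⟩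
    -- few ratios
    have hMcard : (#M : ℝ) ≤ L := by
      obtain ⟨Q, hQ⟩ : ∃ Q : Finset (ℝ × ℝ), Q = B.image (fun b => b⁻¹ • x) := ⟨_, rfl⟩
      have hQc : #Q = #B := by rw [hQ]; exact card_image_of_injOn hinjB
      have hQP : Q ⊆ P := by
        intro y hy
        rw [hQ] at hy
        obtain ⟨b, hb, rfl⟩ := mem_image.1 hy
        exact hAP b (hBA b hb)
      have hmaps : ∀ y ∈ (Q ×ˢ M).image (fun p : (ℝ × ℝ) × ℝˣ => p.1 + (p.2 : ℝ) • t),
          y ∈ (S ^ 7).image (fun s => s • q) := by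
        intro y hy
        obtain ⟨⟨p, m⟩, hpm, rfl⟩ := mem_image.1 hy
        obtain ⟨hp, hm⟩ := mem_product.1 hpm
        rw [hM] at hm
        obtain ⟨s, hs, rfl⟩ := mem_image.1 hm
        rw [hQ] at hp
        obtain ⟨b, hb, hbp⟩ := mem_image.1 hp
        rw [mem_image]
        refine ⟨s * g * s⁻¹ * (a⁻¹ * b)⁻¹, ?_, ?_⟩
        · exact hmul 6 1 _ (hmul 5 1 _ (hmul 1 4 _ (hone s hs) _ hg) _ (hone _ (hSinv s hs))) _
            (hone _ (hSinv _ (hBS b hb)))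
        · rw [mul_smul, ← hpB b hb, hgt, Hy.conj_tr, Hy.tr_smul]
          simp only at hbp ⊢
          rw [hbp]
      have hfib : #(Q ×ˢ M) ≤ 2 * #((Q ×ˢ M).image (fun p : (ℝ × ℝ) × ℝˣ => p.1 + (p.2 : ℝ) • t)) := by
        refine Finset.card_le_mul_card_image _ 2 ?_
        intro y _
        have h1 : #((Q ×ˢ M).filter (fun p : (ℝ × ℝ) × ℝˣ => p.1 + (p.2 : ℝ) • t = y)) =
            #(((Q ×ˢ M).filter (fun p : (ℝ × ℝ) × ℝˣ => p.1 + (p.2 : ℝ) • t = y)).image (fun p => p.1)) := by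
          symm
          apply Finset.card_image_of_injOn
          intro p hp p' hp' h
          have e1 := (mem_filter.1 (mem_coe.1 hp)).2
          have e2 := (mem_filter.1 (mem_coe.1 hp')).2
          simp only at h
          have e3 : (p.2 : ℝ) • t = (p'.2 : ℝ) • t := by
            rw [← e2, h] at e1
            exact add_left_cancel e1
          have e4 : ((p.2 : ℝ) - p'.2) • t = 0 := by rw [sub_smul, e3, sub_self]
          rcases smul_eq_zero.1 e4 with e5 | e5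
          · exact Prod.ext h (Units.ext (by linarith))
          · exact absurd e5 ht0
        rw [h1]
        refine hP.card_line y t _ ?_ ?_
        · intro p hp
          obtain ⟨p', hp', rfl⟩ := mem_image.1 hp
          exact hQP (mem_product.1 (mem_filter.1 hp').1).1
        · intro p hp
          obtain ⟨p', hp', rfl⟩ := mem_image.1 hp
          refine ⟨-(p'.2 : ℝ), ?_⟩
          rw [← (mem_filter.1 hp').2]
          module
      have h2 : #((Q ×ˢ M).image (fun p : (ℝ × ℝ) × ℝˣ => p.1 + (p.2 : ℝ) • t)) ≤ #(S ^ 7) :=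
        (card_le_card hmaps).trans card_image_le
      have h3 : (#B : ℝ) * #M ≤ 2 * (c 7 * n) := by
        have h4 : #B * #M ≤ 2 * #(S ^ 7) := by
          rw [← hQc, ← card_product]
          exact hfib.trans (Nat.mul_le_mul_left 2 h2)
        have h5 : (#B : ℝ) * #M ≤ 2 * #(S ^ 7) := by exact_mod_cast h4
        have := hcard 7
        linarith
      have h6 : κ * n / 2 * #M ≤ 2 * (c 7 * n) :=
        (mul_le_mul_of_nonneg_right hBn (Nat.cast_nonneg _)).trans h3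
      have h7 : (#M : ℝ) ≤ 4 * c 7 / κ := by
        rw [le_div_iff₀ hκ]
        have : (#M : ℝ) * κ * n ≤ 4 * c 7 * n := by linarith
        exact le_of_mul_le_mul_right this hn0
      rw [hL]
      exact h7.trans (le_max_right _ _)
    -- one popular ratio
    have hMne : M.Nonempty := by rw [hM]; exact ⟨_, mem_image_of_mem _ h1S⟩
    have hmapsM : ∀ b ∈ B, (a⁻¹ * b).a ∈ M := by
      intro b hb; rw [hM]; exact mem_image_of_mem _ (hBS b hb)
    have hL0 : 0 < L := by linarith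
    obtain ⟨m, hmM, hm⟩ := Finset.exists_le_card_fiber_of_nsmul_le_card_of_maps_to
      (b := (κ * n / 2 / L : ℝ)) hmapsM hMne (by
        rw [nsmul_eq_mul]
        refine le_trans ?_ hBn
        calc (#M : ℝ) * (κ * n / 2 / L) ≤ L * (κ * n / 2 / L) :=
              mul_le_mul_of_nonneg_right hMcard (by positivity)
          _ = κ * n / 2 := by field_simp)
    obtain ⟨B₁, hB₁⟩ : ∃ B₁ : Finset Hy, B₁ = B.filter (fun b => (a⁻¹ * b).a = m) := ⟨_, rfl⟩
    rw [← hB₁] at hm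
    have hB₁B : ∀ b ∈ B₁, b ∈ B ∧ (a⁻¹ * b).a = m := by
      intro b hb; rw [hB₁] at hb; exact mem_filter.1 hb
    obtain ⟨P₁, hP₁⟩ : ∃ P₁ : Finset (ℝ × ℝ), P₁ = B₁.image (fun b => b⁻¹ • x) := ⟨_, rfl⟩
    have hP₁c : #P₁ = #B₁ := by
      rw [hP₁]
      apply card_image_of_injOn
      intro b hb b' hb' h
      exact hinjB (mem_coe.2 (hB₁B b (mem_coe.1 hb)).1) (mem_coe.2 (hB₁B b' (mem_coe.1 hb')).1) h
    have hP₁P : P₁ ⊆ P := by
      intro y hy
      rw [hP₁] at hy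
      obtain ⟨b, hb, rfl⟩ := mem_image.1 hy
      exact hAP b (hBA b (hB₁B b hb).1)
    have hsub : P₁ + P₁ - P₁ ⊆ (S ^ 3).image (fun s => s • q) := by
      intro y hy
      obtain ⟨u, hu, w, hw, rfl⟩ := mem_sub.1 hy
      obtain ⟨p, hp, r, hr, rfl⟩ := mem_add.1 hu
      rw [hP₁] at hp hr hw
      obtain ⟨b, hb, rfl⟩ := mem_image.1 hp
      obtain ⟨b', hb', rfl⟩ := mem_image.1 hr
      obtain ⟨b'', hb'', rfl⟩ := mem_image.1 hw
      rw [mem_image]
      refine ⟨(a⁻¹ * b')⁻¹ * (a⁻¹ * b'') * (a⁻¹ * b)⁻¹, ?_, ?_⟩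
      · exact hmul 2 1 _ (hSmul2 _ (hSinv _ (hBS b' (hB₁B b' hb').1)) _ (hBS b'' (hB₁B b'' hb'').1)) _
          (hone _ (hSinv _ (hBS b (hB₁B b hb).1)))
      · rw [mul_smul, Hy.same_ratio (a⁻¹ * b') (a⁻¹ * b'')
          ((hB₁B b' hb').2.trans (hB₁B b'' hb'').2.symm) q, Hy.tr_smul, ← hpB b (hB₁B b hb).1,
          ← hpB b' (hB₁B b' hb').1, ← hpB b'' (hB₁B b'' hb'').1]
        abel
    have hP₁r : κ * n / 2 / L ≤ #P₁ := by rw [hP₁c]; exact hm
    have hbig : m₀ ≤ #P₁ := by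
      have h1 : (m₀ : ℝ) ≤ κ * n / 2 / L := by
        rw [le_div_iff₀ hL0]
        have : m₀ * (2 * L / κ) * (κ / 2) ≤ n * (κ / 2) :=
          mul_le_mul_of_nonneg_right hb2 (by positivity)
        have h5 : m₀ * (2 * L / κ) * (κ / 2) = m₀ * L := by field_simp
        rw [h5] at this
        linarith
      have : (m₀ : ℝ) ≤ #P₁ := h1.trans hP₁r
      exact_mod_cast this
    have hdoub : (#(P₁ + P₁ - P₁) : ℝ) ≤ K' * #P₁ := by
      have h1 : (#(P₁ + P₁ - P₁) : ℝ) ≤ c 3 * n := by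
        have : #(P₁ + P₁ - P₁) ≤ #(S ^ 3) := (card_le_card hsub).trans card_image_le
        have h2 : (#(P₁ + P₁ - P₁) : ℝ) ≤ #(S ^ 3) := by exact_mod_cast this
        exact h2.trans (hcard 3)
      have h3 : n ≤ 2 * L / κ * #P₁ := by
        have : 2 * L / κ * (κ * n / 2 / L) ≤ 2 * L / κ * #P₁ :=
          mul_le_mul_of_nonneg_left hP₁r (by positivity)
        have h5 : 2 * L / κ * (κ * n / 2 / L) = n := by field_simp
        rwa [h5] at this
      calc (#(P₁ + P₁ - P₁) : ℝ) ≤ c 3 * n := h1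
        _ ≤ c 3 * (2 * L / κ * #P₁) := mul_le_mul_of_nonneg_left h3 (hc0 3).le
        _ = c 3 * (2 * L / κ) * #P₁ := by ring
        _ ≤ K' * #P₁ := by
            apply mul_le_mul_of_nonneg_right _ (Nat.cast_nonneg _)
            rw [hK']; exact le_max_right _ _
    exact hm₀ P₁ hbig hdoub (hP.threeAPFree hP₁P)

end Pool.Agent.Work.MP_763b10_co
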