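import Mathlib
import Pool.Agent.Work.MP_763b10_co.Struct

set_option autoImplicit false

/-!
Selection of a part of small doubling in a family of homotheties which moves many pairs of `P`.
-/

namespace Pool.Agent.Work.MP_763b10_co

open Finset
open scoped Pointwise

/-- few rich maps -/
theorem rich_card {P : Finset (ℝ × ℝ)} (hP : GP P) (δ : ℝ) (hδn : 2 ≤ δ * #P) (R : Finset Hy)
    (hR : ∀ r ∈ R, δ * #P ≤ #(P.filter (fun p => r • p ∈ P))) :
    (#R : ℝ) * δ ^ 2 ≤ 2 * #P := by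
  classical
  obtain ⟨n, hn⟩ : ∃ n : ℝ, n = #P := ⟨_, rfl⟩
  rw [← hn] at hδn hR ⊢
  have hn0 : 0 < n := by
    rcases lt_or_eq_of_le (show 0 ≤ n by rw [hn]; exact Nat.cast_nonneg _) with h | h
    · exact h
    · rw [← h] at hδn; linarith
  obtain ⟨F, hF⟩ : ∃ F : Finset (Hy × (ℝ × ℝ) × (ℝ × ℝ)), F = (R ×ˢ (P ×ˢ P)).filter
    (fun f => f.2.1 ≠ f.2.2 ∧ f.1 • f.2.1 ∈ P ∧ f.1 • f.2.2 ∈ P) := ⟨_, rfl⟩
  have h1 : #F ≤ #(P ×ˢ (P ×ˢ P)) := by
    refine card_le_card_of_injOn (fun f => (f.2.1, f.2.2, f.1 • f.2.1)) ?_ ?_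
    · intro f hf
      have hf' := mem_coe.1 hf
      rw [hF, mem_filter] at hf'
      have h2 := mem_product.1 (mem_product.1 hf'.1).2
      exact mem_coe.2 (mem_product.2 ⟨h2.1, mem_product.2 ⟨h2.2, hf'.2.2.1⟩⟩)
    · intro f hf f' hf' h
      have hf1 := mem_coe.1 hf
      have hf1' := mem_coe.1 hf'
      rw [hF, mem_filter] at hf1 hf1'
      obtain ⟨r, p, q⟩ := f
      obtain ⟨r', p', q'⟩ := f'
      simp only [Prod.mk.injEq] at h hf1 hf1' ⊢
      obtain ⟨e1, e2, e3⟩ := h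
      subst e1; subst e2
      refine ⟨?_, rfl, rfl⟩
      have hpq : p ≠ q := hf1.2.1
      have i1 : r • q = r • p + (r.a : ℝ) • (q - p) := by
        rw [← Hy.smul_sub_smul]; abel
      have i2 : r' • q = r • p + (r'.a : ℝ) • (q - p) := by
        rw [← Hy.smul_sub_smul, e3]; abel
      have n1 : r • p ≠ r • q := fun hh => hpq (by
        have := congrArg (fun y => r⁻¹ • y) hh
        simpa using this)
      have n2 : r • p ≠ r' • q := fun hh => hpq (by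
        rw [e3] at hh
        have := congrArg (fun y => r'⁻¹ • y) hh
        simpa using this)
      have i3 := hP.line hf1.2.2.1 hf1.2.2.2 hf1'.2.2.2 n1 n2 i1 i2
      exact Hy.eq_of_two r r' p q hpq e3 i3
  have h2 : (#F : ℝ) = ∑ r ∈ R, (#((P ×ˢ P).filter
      (fun f => f.1 ≠ f.2 ∧ r • f.1 ∈ P ∧ r • f.2 ∈ P)) : ℝ) := by
    rw [← Nat.cast_sum, hF, Finset.card_filter, Finset.sum_product]
    congr 1
    refine Finset.sum_congr rfl fun r _ => ?_
    rw [Finset.card_filter]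
  have h3 : ∀ r ∈ R, (δ * n) ^ 2 / 2 ≤ (#((P ×ˢ P).filter
      (fun f => f.1 ≠ f.2 ∧ r • f.1 ∈ P ∧ r • f.2 ∈ P)) : ℝ) := by
    intro r hr
    have h4 := hR r hr
    have h5 : (P ×ˢ P).filter (fun f => f.1 ≠ f.2 ∧ r • f.1 ∈ P ∧ r • f.2 ∈ P) =
        (P.filter (fun p => r • p ∈ P)).offDiag := by
      ext f
      simp only [mem_filter, mem_product, mem_offDiag]
      tauto
    rw [h5, offDiag_card]
    have h6 : #(P.filter (fun p => r • p ∈ P)) ≤ #(P.filter (fun p => r • p ∈ P)) *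
        #(P.filter (fun p => r • p ∈ P)) := Nat.le_mul_self _
    rw [Nat.cast_sub h6]
    push_cast
    nlinarith
  have h4 : (#R : ℝ) * ((δ * n) ^ 2 / 2) ≤ #F := by
    rw [h2]
    have := Finset.sum_le_sum h3
    rwa [Finset.sum_const, nsmul_eq_mul] at this
  have h5 : (#F : ℝ) ≤ n ^ 3 := by
    have : (#F : ℝ) ≤ #(P ×ˢ (P ×ˢ P)) := by exact_mod_cast h1
    rw [card_product, card_product] at this
    push_cast at this
    rw [← hn] at this
    linarith [this, show n * (n * n) = n ^ 3 by ring]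
  have h6 : (#R : ℝ) * δ ^ 2 * (n ^ 2 / 2) ≤ 2 * n * (n ^ 2 / 2) := by
    have e1 : (#R : ℝ) * δ ^ 2 * (n ^ 2 / 2) = (#R : ℝ) * ((δ * n) ^ 2 / 2) := by ring
    have e2 : 2 * n * (n ^ 2 / 2) = n ^ 3 := by ring
    rw [e1, e2]
    exact h4.trans h5
  exact le_of_mul_le_mul_right h6 (by positivity)

/-- small doubling from many common good partners -/
theorem small_of_partners (A A' R : Finset Hy) (f : Hy → Hy → Hy) (hf : ∀ g, Function.Injective (f g))
    (β : ℝ) (T : Finset Hy)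
    (hT : ∀ u ∈ T, ∃ g ∈ A', ∃ g' ∈ A', ∀ h, f g h * (f g' h)⁻¹ = u)
    (hpart : ∀ g ∈ A', ∀ g' ∈ A', β ≤ #(A.filter (fun h => f g h ∈ R ∧ f g' h ∈ R))) :
    β * #T ≤ (#R : ℝ) ^ 2 := by
  classical
  have h1 : ∀ u ∈ T, β ≤ (#((R ×ˢ R).filter (fun p => p.1 * p.2⁻¹ = u)) : ℝ) := by
    intro u hu
    obtain ⟨g, hg, g', hg', hgu⟩ := hT u hu
    refine (hpart g hg g' hg').trans ?_
    have : #(A.filter (fun h => f g h ∈ R ∧ f g' h ∈ R)) ≤
        #((R ×ˢ R).filter (fun p => p.1 * p.2⁻¹ = u)) := by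
      refine card_le_card_of_injOn (fun h => (f g h, f g' h)) ?_ ?_
      · intro h hh
        have hh' := (mem_filter.1 (mem_coe.1 hh)).2
        exact mem_coe.2 (mem_filter.2 ⟨mem_product.2 hh', hgu h⟩)
      · intro h _ h' _ hh
        exact hf g (congrArg Prod.fst hh)
    exact_mod_cast this
  have h2 : (#((R ×ˢ R).filter (fun p => p.1 * p.2⁻¹ ∈ T)) : ℝ) =
      ∑ u ∈ T, (#((R ×ˢ R).filter (fun p => p.1 * p.2⁻¹ = u)) : ℝ) := by
    rw [← Nat.cast_sum]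
    congr 1
    rw [Finset.card_eq_sum_card_fiberwise (f := fun p : Hy × Hy => p.1 * p.2⁻¹) (t := T)]
    · refine Finset.sum_congr rfl fun u hu => ?_
      congr 1
      ext p
      simp only [mem_filter]
      constructor
      · rintro ⟨⟨h3, -⟩, h4⟩; exact ⟨h3, h4⟩
      · rintro ⟨h3, h4⟩; exact ⟨⟨h3, h4 ▸ hu⟩, h4⟩
    · intro p hp
      exact mem_coe.2 (mem_filter.1 (mem_coe.1 hp)).2
  calc β * #T = ∑ _u ∈ T, β := by rw [Finset.sum_const, nsmul_eq_mul]; ring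
    _ ≤ ∑ u ∈ T, (#((R ×ˢ R).filter (fun p => p.1 * p.2⁻¹ = u)) : ℝ) := Finset.sum_le_sum h1
    _ = (#((R ×ˢ R).filter (fun p => p.1 * p.2⁻¹ ∈ T)) : ℝ) := h2.symm
    _ ≤ #(R ×ˢ R) := by exact_mod_cast card_filter_le _ _
    _ = (#R : ℝ) ^ 2 := by rw [card_product]; push_cast; ring

end Pool.Agent.Work.MP_763b10_co
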