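import Mathlib
import Pool.Agent.Work.MP_763b10_co.Select

set_option autoImplicit false

/-!
The number of pairs (point, ratio) which are needed to divide many pairs of a finite set without
three collinear points is superlinear.
-/

namespace Pool.Agent.Work.MP_763b10_co

open Finset
open scoped Pointwise

section

variable (E : Finset ((ℝ × ℝ) × (ℝ × ℝ))) (σ : (ℝ × ℝ) × (ℝ × ℝ) → Hy)

/-- the pairs moved by `g` -/
noncomputable def Eg (g : Hy) : Finset ((ℝ × ℝ) × (ℝ × ℝ)) := E.filter (fun e => σ e = g)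

/-- targets -/
noncomputable def Xg (g : Hy) : Finset (ℝ × ℝ) := (Eg E σ g).image Prod.snd

/-- sources -/
noncomputable def Yg (g : Hy) : Finset (ℝ × ℝ) := (Eg E σ g).image Prod.fst

variable {E σ}

theorem mem_Eg {g : Hy} {e : (ℝ × ℝ) × (ℝ × ℝ)} : e ∈ Eg E σ g ↔ e ∈ E ∧ σ e = g := by
  unfold Eg; rw [mem_filter]

theorem mem_Xg (hσ : ∀ e ∈ E, σ e • e.1 = e.2) {g : Hy} {x : ℝ × ℝ} :
    x ∈ Xg E σ g ↔ (g⁻¹ • x, x) ∈ E ∧ σ (g⁻¹ • x, x) = g := by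
  unfold Xg
  rw [mem_image]
  constructor
  · rintro ⟨e, he, rfl⟩
    rw [mem_Eg] at he
    have h1 := hσ e he.1
    rw [he.2] at h1
    have h2 : (g⁻¹ • e.2, e.2) = e := by
      refine Prod.ext ?_ rfl
      simp only
      rw [← h1, inv_smul_smul]
    rw [h2]
    exact he
  · intro h
    exact ⟨_, mem_Eg.2 h, rfl⟩

theorem mem_Yg (hσ : ∀ e ∈ E, σ e • e.1 = e.2) {g : Hy} {y : ℝ × ℝ} :
    y ∈ Yg E σ g ↔ (y, g • y) ∈ E ∧ σ (y, g • y) = g := by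
  unfold Yg
  rw [mem_image]
  constructor
  · rintro ⟨e, he, rfl⟩
    rw [mem_Eg] at he
    have h1 := hσ e he.1
    rw [he.2] at h1
    rw [h1]
    exact he
  · intro h
    exact ⟨_, mem_Eg.2 h, rfl⟩

theorem card_Xg (hσ : ∀ e ∈ E, σ e • e.1 = e.2) (g : Hy) : #(Xg E σ g) = #(Eg E σ g) := by
  unfold Xg
  apply card_image_of_injOn
  intro e he e' he' h
  have h1 := mem_Eg.1 (mem_coe.1 he)
  have h2 := mem_Eg.1 (mem_coe.1 he')
  have h3 := hσ e h1.1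
  have h4 := hσ e' h2.1
  rw [h1.2] at h3
  rw [h2.2] at h4
  refine Prod.ext ?_ h
  have : g • e.1 = g • e'.1 := by rw [h3, h4]; exact h
  exact MulAction.injective g this

theorem card_Yg (hσ : ∀ e ∈ E, σ e • e.1 = e.2) (g : Hy) : #(Yg E σ g) = #(Eg E σ g) := by
  unfold Yg
  apply card_image_of_injOn
  intro e he e' he' h
  have h1 := mem_Eg.1 (mem_coe.1 he)
  have h2 := mem_Eg.1 (mem_coe.1 he')
  have h3 := hσ e h1.1
  have h4 := hσ e' h2.1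
  rw [h1.2] at h3
  rw [h2.2] at h4
  have h' : e.1 = e'.1 := h
  refine Prod.ext h' ?_
  rw [← h3, ← h4, h']

end

theorem card_bound {P : Finset (ℝ × ℝ)} (hP : GP P) (α δ m n : ℝ) (hα0 : 0 < α) (hδ0 : 0 < δ)
    (hn0 : 0 < n) (hn : n = #P) (hδn : 2 ≤ δ * n) (hmα : α * n / 2 ≤ m) (R T : Finset Hy)
    (hR : ∀ r ∈ R, δ * n ≤ #(P.filter (fun p => r • p ∈ P))) (hRT : m / 2 * #T ≤ (#R : ℝ) ^ 2) :
    (#T : ℝ) ≤ max 1 (16 / (α * δ ^ 4)) * n := by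
  have h1 := rich_card hP δ (by rw [← hn]; exact hδn) R (by rw [← hn]; exact hR)
  rw [← hn] at h1
  have h2 : ((#R : ℝ) * δ ^ 2) ^ 2 ≤ (2 * n) ^ 2 := pow_le_pow_left₀ (by positivity) h1 2
  have h3 : α * n / 4 * #T ≤ (#R : ℝ) ^ 2 := by
    refine le_trans ?_ hRT
    apply mul_le_mul_of_nonneg_right _ (Nat.cast_nonneg _)
    linarith
  have h4 : (#T : ℝ) * (α * δ ^ 4 * n) ≤ 16 * n * n := by
    have h5 : α * n / 4 * #T * δ ^ 4 ≤ (#R : ℝ) ^ 2 * δ ^ 4 :=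
      mul_le_mul_of_nonneg_right h3 (by positivity)
    have h7 : ((#R : ℝ) * δ ^ 2) ^ 2 = (#R : ℝ) ^ 2 * δ ^ 4 := by ring
    have h8 : (#T : ℝ) * (α * δ ^ 4 * n) = 4 * (α * n / 4 * #T * δ ^ 4) := by ring
    rw [h7] at h2
    calc (#T : ℝ) * (α * δ ^ 4 * n) = 4 * (α * n / 4 * #T * δ ^ 4) := h8
      _ ≤ 4 * ((#R : ℝ) ^ 2 * δ ^ 4) := mul_le_mul_of_nonneg_left h5 (by norm_num)
      _ ≤ 4 * (2 * n) ^ 2 := mul_le_mul_of_nonneg_left h2 (by norm_num)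
      _ = 16 * n * n := by ring
  have h6 : (#T : ℝ) ≤ 16 / (α * δ ^ 4) * n := by
    rw [div_mul_eq_mul_div, le_div_iff₀ (by positivity)]
    have : (#T : ℝ) * (α * δ ^ 4) * n ≤ 16 * n * n := by linarith
    exact le_of_mul_le_mul_right this hn0
  refine h6.trans ?_
  exact mul_le_mul_of_nonneg_right (le_max_right _ _) hn0.le

theorem selection (C ε : ℝ) (hC : 0 < C) (hε : 0 < ε) : ∃ κ K : ℝ, 0 < κ ∧ 1 ≤ K ∧ ∃ N : ℕ,
    ∀ P : Finset (ℝ × ℝ), GP P → N ≤ #P → ∀ (G : Finset Hy) (E : Finset ((ℝ × ℝ) × (ℝ × ℝ)))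
      (σ : (ℝ × ℝ) × (ℝ × ℝ) → Hy), (#G : ℝ) ≤ C * #P → E ⊆ P ×ˢ P → ε * (#P : ℝ) ^ 2 ≤ #E →
      (∀ e ∈ E, σ e ∈ G) → (∀ e ∈ E, σ e • e.1 = e.2) →
      ∃ (x : ℝ × ℝ) (A : Finset Hy), κ * #P ≤ #A ∧ (∀ a ∈ A, a⁻¹ • x ∈ P) ∧
        Set.InjOn (fun a : Hy => a⁻¹ • x) (A : Set Hy) ∧
        (#(A * A⁻¹) : ℝ) ≤ K * #P ∧ (#(A⁻¹ * A) : ℝ) ≤ K * #P := by
  classical
  obtain ⟨α, hα⟩ : ∃ α : ℝ, α = ε ^ 2 / C := ⟨_, rfl⟩
  have hα0 : 0 < α := by rw [hα]; positivity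
  obtain ⟨δ, hδ⟩ : ∃ δ : ℝ, δ = α ^ 2 / (128 * C ^ 2) := ⟨_, rfl⟩
  have hδ0 : 0 < δ := by rw [hδ]; positivity
  refine ⟨α / 4, max 1 (16 / (α * δ ^ 4)), by positivity, le_max_left _ _, ⌈2 / δ⌉₊ + 1, ?_⟩
  intro P hP hN G E σ hG hEP hE hσG hσ
  obtain ⟨n, hn⟩ : ∃ n : ℝ, n = #P := ⟨_, rfl⟩
  rw [← hn] at hG hE ⊢
  have hn0 : 0 < n := by
    rw [hn]; exact_mod_cast (by omega : 0 < #P)
  have hδn : 2 ≤ δ * n := by
    have h1 : 2 / δ ≤ n := by
      have h2 := Nat.le_ceil (2 / δ)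
      have h3 : ((⌈2 / δ⌉₊ : ℕ) : ℝ) + 1 ≤ n := by rw [hn]; exact_mod_cast hN
      linarith
    rw [div_le_iff₀ hδ0] at h1
    linarith
  have hXP : ∀ g, Xg E σ g ⊆ P := by
    intro g x hx
    exact (mem_product.1 (hEP ((mem_Xg hσ).1 hx).1)).2
  have hYP : ∀ g, Yg E σ g ⊆ P := by
    intro g x hx
    exact (mem_product.1 (hEP ((mem_Yg hσ).1 hx).1)).1
  have hXn : ∀ T : Finset (ℝ × ℝ), T ⊆ P → (#T : ℝ) ≤ n := by
    intro T hT
    rw [hn]; exact_mod_cast card_le_card hT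
  -- sum of the squares
  have hsq : α * n ^ 3 ≤ ∑ g ∈ G, (#(Eg E σ g) : ℝ) ^ 2 := by
    have h1 : (#E : ℝ) = ∑ g ∈ G, (#(Eg E σ g) : ℝ) := by
      rw [← Nat.cast_sum]
      congr 1
      exact Finset.card_eq_sum_card_fiberwise (fun e he => mem_coe.2 (hσG e (mem_coe.1 he)))
    have h2 := sq_sum_le_card_mul_sum_sq (s := G) (f := fun g => (#(Eg E σ g) : ℝ))
    rw [← h1] at h2
    have h3 : (ε * n ^ 2) ^ 2 ≤ (#E : ℝ) ^ 2 := pow_le_pow_left₀ (by positivity) hE 2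
    have h4 : (#G : ℝ) * ∑ g ∈ G, (#(Eg E σ g) : ℝ) ^ 2 ≤ C * n * ∑ g ∈ G, (#(Eg E σ g) : ℝ) ^ 2 :=
      mul_le_mul_of_nonneg_right hG (Finset.sum_nonneg fun _ _ => by positivity)
    have h5 : C * n * (α * n ^ 3) ≤ C * n * ∑ g ∈ G, (#(Eg E σ g) : ℝ) ^ 2 := by
      have h6 : C * n * (α * n ^ 3) = (ε * n ^ 2) ^ 2 := by rw [hα]; field_simp
      rw [h6]
      exact h3.trans (h2.trans h4)
    exact le_of_mul_le_mul_left h5 (by positivity)
  -- maps with target `x` and source `y`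
  obtain ⟨A2, hA2⟩ : ∃ A2 : (ℝ × ℝ) × (ℝ × ℝ) → Finset Hy,
    A2 = fun w => G.filter (fun g => w.1 ∈ Xg E σ g ∧ w.2 ∈ Yg E σ g) := ⟨_, rfl⟩
  have hmemA2 : ∀ w g, g ∈ A2 w ↔ g ∈ G ∧ w.1 ∈ Xg E σ g ∧ w.2 ∈ Yg E σ g := by
    intro w g; rw [hA2]; simp only [mem_filter]
  have hS1 : ∑ w ∈ P ×ˢ P, (#(A2 w) : ℝ) = ∑ g ∈ G, (#(Eg E σ g) : ℝ) ^ 2 := by
    have h1 : ∀ w, (#(A2 w) : ℝ) = ∑ g ∈ G, (if w.1 ∈ Xg E σ g ∧ w.2 ∈ Yg E σ g then (1 : ℝ) else 0) := by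
      intro w
      rw [hA2]
      simp only [Finset.card_filter]
      push_cast
      rfl
    rw [Finset.sum_congr rfl (fun w _ => h1 w), Finset.sum_comm]
    refine Finset.sum_congr rfl fun g _ => ?_
    rw [← Finset.sum_filter, Finset.sum_const, nsmul_eq_mul, mul_one]
    have h2 : (P ×ˢ P).filter (fun w => w.1 ∈ Xg E σ g ∧ w.2 ∈ Yg E σ g) = Xg E σ g ×ˢ Yg E σ g := by
      ext w
      simp only [mem_filter, mem_product]
      constructor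
      · rintro ⟨_, h⟩; exact h
      · intro h; exact ⟨⟨hXP g h.1, hYP g h.2⟩, h⟩
    rw [h2, card_product, card_Xg hσ, card_Yg hσ]
    push_cast; ring
  have hS3 : α ^ 2 * n ^ 4 ≤ ∑ w ∈ P ×ˢ P, (#(A2 w) : ℝ) ^ 2 := by
    have h1 := sq_sum_le_card_mul_sum_sq (s := P ×ˢ P) (f := fun w => (#(A2 w) : ℝ))
    rw [hS1, card_product] at h1
    push_cast at h1
    rw [← hn] at h1
    have h2 : (α * n ^ 3) ^ 2 ≤ (∑ g ∈ G, (#(Eg E σ g) : ℝ) ^ 2) ^ 2 :=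
      pow_le_pow_left₀ (by positivity) hsq 2
    have h3 : n * n * (α ^ 2 * n ^ 4) ≤ n * n * ∑ w ∈ P ×ˢ P, (#(A2 w) : ℝ) ^ 2 := by
      have : n * n * (α ^ 2 * n ^ 4) = (α * n ^ 3) ^ 2 := by ring
      rw [this]
      exact h2.trans h1
    exact le_of_mul_le_mul_left h3 (by positivity)
  -- bad pairs
  obtain ⟨bad, hbad⟩ : ∃ bad : Hy → Hy → Prop, bad = fun g h =>
    (#(Xg E σ g ∩ Xg E σ h) : ℝ) < δ * n ∨ (#(Yg E σ g ∩ Yg E σ h) : ℝ) < δ * n := ⟨_, rfl⟩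
  have hS4 : ∑ w ∈ P ×ˢ P, (#((A2 w ×ˢ A2 w).filter (fun f => bad f.1 f.2)) : ℝ) ≤
      C ^ 2 * δ * n ^ 4 := by
    have h1 : ∀ w, (#((A2 w ×ˢ A2 w).filter (fun f => bad f.1 f.2)) : ℝ) =
        ∑ f ∈ G ×ˢ G, (if bad f.1 f.2 ∧ (w.1 ∈ Xg E σ f.1 ∧ w.2 ∈ Yg E σ f.1) ∧
          (w.1 ∈ Xg E σ f.2 ∧ w.2 ∈ Yg E σ f.2) then (1 : ℝ) else 0) := by
      intro w
      rw [← Finset.sum_filter, Finset.sum_const, nsmul_eq_mul, mul_one]
      congr 2
      ext f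
      simp only [mem_filter, mem_product, hmemA2]
      tauto
    rw [Finset.sum_congr rfl (fun w _ => h1 w), Finset.sum_comm]
    have h2 : ∀ f ∈ G ×ˢ G, ∑ w ∈ P ×ˢ P, (if bad f.1 f.2 ∧ (w.1 ∈ Xg E σ f.1 ∧ w.2 ∈ Yg E σ f.1) ∧
          (w.1 ∈ Xg E σ f.2 ∧ w.2 ∈ Yg E σ f.2) then (1 : ℝ) else 0) ≤ δ * n * n := by
      intro f _
      rw [← Finset.sum_filter, Finset.sum_const, nsmul_eq_mul, mul_one]
      by_cases hb : bad f.1 f.2
      · have h3 : (P ×ˢ P).filter (fun w => bad f.1 f.2 ∧ (w.1 ∈ Xg E σ f.1 ∧ w.2 ∈ Yg E σ f.1) ∧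
            (w.1 ∈ Xg E σ f.2 ∧ w.2 ∈ Yg E σ f.2)) ⊆
            (Xg E σ f.1 ∩ Xg E σ f.2) ×ˢ (Yg E σ f.1 ∩ Yg E σ f.2) := by
          intro w hw
          have hw' := (mem_filter.1 hw).2
          exact mem_product.2 ⟨mem_inter.2 ⟨hw'.2.1.1, hw'.2.2.1⟩, mem_inter.2 ⟨hw'.2.1.2, hw'.2.2.2⟩⟩
        have h4 : (#((P ×ˢ P).filter (fun w => bad f.1 f.2 ∧ (w.1 ∈ Xg E σ f.1 ∧ w.2 ∈ Yg E σ f.1) ∧
            (w.1 ∈ Xg E σ f.2 ∧ w.2 ∈ Yg E σ f.2))) : ℝ) ≤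
            (#(Xg E σ f.1 ∩ Xg E σ f.2) : ℝ) * #(Yg E σ f.1 ∩ Yg E σ f.2) := by
          have := card_le_card h3
          rw [card_product] at this
          exact_mod_cast this
        refine h4.trans ?_
        have hx := hXn (Xg E σ f.1 ∩ Xg E σ f.2) (inter_subset_left.trans (hXP _))
        have hy := hXn (Yg E σ f.1 ∩ Yg E σ f.2) (inter_subset_left.trans (hYP _))
        have hx0 : (0 : ℝ) ≤ #(Xg E σ f.1 ∩ Xg E σ f.2) := Nat.cast_nonneg _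
        have hy0 : (0 : ℝ) ≤ #(Yg E σ f.1 ∩ Yg E σ f.2) := Nat.cast_nonneg _
        rw [hbad] at hb
        rcases hb with hb | hb
        · exact mul_le_mul hb.le hy hy0 (by positivity)
        · calc (#(Xg E σ f.1 ∩ Xg E σ f.2) : ℝ) * #(Yg E σ f.1 ∩ Yg E σ f.2)
              ≤ n * (δ * n) := mul_le_mul hx hb.le hy0 hn0.le
            _ = δ * n * n := by ring
      · have h3 : (P ×ˢ P).filter (fun w => bad f.1 f.2 ∧ (w.1 ∈ Xg E σ f.1 ∧ w.2 ∈ Yg E σ f.1) ∧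
            (w.1 ∈ Xg E σ f.2 ∧ w.2 ∈ Yg E σ f.2)) = ∅ :=
          filter_eq_empty_iff.2 (fun w _ h => hb h.1)
        rw [h3]
        simp only [card_empty, Nat.cast_zero]
        positivity
    refine (Finset.sum_le_sum h2).trans ?_
    rw [Finset.sum_const, nsmul_eq_mul, card_product]
    push_cast
    have h5 : (#G : ℝ) * #G ≤ (C * n) * (C * n) :=
      mul_le_mul hG hG (Nat.cast_nonneg _) (by positivity)
    calc (#G : ℝ) * #G * (δ * n * n) ≤ (C * n) * (C * n) * (δ * n * n) :=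
          mul_le_mul_of_nonneg_right h5 (by positivity)
      _ = C ^ 2 * δ * n ^ 4 := by ring
  -- a good pair
  obtain ⟨w, hw, hwA⟩ : ∃ w ∈ P ×ˢ P, 64 * (#((A2 w ×ˢ A2 w).filter (fun f => bad f.1 f.2)) : ℝ) +
      α ^ 2 * n ^ 2 / 2 ≤ (#(A2 w) : ℝ) ^ 2 := by
    by_contra hno
    push Not at hno
    have hne : (P ×ˢ P).Nonempty := by
      have : P.Nonempty := by rw [← Finset.card_pos]; omega
      exact this.product this
    have h1 := Finset.sum_lt_sum_of_nonempty hne hno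
    rw [Finset.sum_add_distrib, ← Finset.mul_sum, Finset.sum_const, nsmul_eq_mul, card_product] at h1
    push_cast at h1
    rw [← hn] at h1
    have h2 : 64 * (C ^ 2 * δ * n ^ 4) = α ^ 2 * n ^ 4 / 2 := by
      rw [hδ]; field_simp; ring
    have h3 : n * n * (α ^ 2 * n ^ 2 / 2) = α ^ 2 * n ^ 4 / 2 := by ring
    linarith
  obtain ⟨A, hA⟩ : ∃ A : Finset Hy, A = A2 w := ⟨_, rfl⟩
  rw [← hA] at hwA
  obtain ⟨m, hm⟩ : ∃ m : ℝ, m = #A := ⟨_, rfl⟩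
  rw [← hm] at hwA
  have hbc0 : (0 : ℝ) ≤ #((A ×ˢ A).filter (fun f => bad f.1 f.2)) := Nat.cast_nonneg _
  have hm0' : 0 ≤ m := by rw [hm]; exact Nat.cast_nonneg _
  have hmα : α * n / 2 ≤ m := by
    have h1 : (α * n / 2) ^ 2 ≤ m ^ 2 := by
      have : (α * n / 2) ^ 2 ≤ α ^ 2 * n ^ 2 / 2 := by
        have h2 : 0 ≤ α ^ 2 * n ^ 2 := by positivity
        nlinarith
      linarith
    exact le_of_sq_le_sq h1 hm0'
  have hm0 : 0 < m := lt_of_lt_of_le (by positivity) hmα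
  have hmemA : ∀ g ∈ A, g ∈ G ∧ w.1 ∈ Xg E σ g ∧ w.2 ∈ Yg E σ g := by
    intro g hg; rw [hA] at hg; exact (hmemA2 w g).1 hg
  obtain ⟨A', hA'⟩ : ∃ A' : Finset Hy, A' = A.filter
    (fun g => (#(A.filter (fun h => bad g h)) : ℝ) ≤ m / 4) := ⟨_, rfl⟩
  have hA'A : ∀ g ∈ A', g ∈ A ∧ (#(A.filter (fun h => bad g h)) : ℝ) ≤ m / 4 := by
    intro g hg; rw [hA'] at hg; exact mem_filter.1 hg
  have hA'card : m / 2 ≤ #A' := by
    have h1 : (#((A ×ˢ A).filter (fun f => bad f.1 f.2)) : ℝ) =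
        ∑ g ∈ A, (#(A.filter (fun h => bad g h)) : ℝ) := by
      rw [← Nat.cast_sum]
      congr 1
      rw [Finset.card_filter, Finset.sum_product]
      refine Finset.sum_congr rfl fun a _ => ?_
      rw [Finset.card_filter]
    have h2 : (#(A.filter (fun g => ¬ (#(A.filter (fun h => bad g h)) : ℝ) ≤ m / 4)) : ℝ) * (m / 4) ≤
        ∑ g ∈ A, (#(A.filter (fun h => bad g h)) : ℝ) := by
      rw [← nsmul_eq_mul, ← Finset.sum_const]
      calc ∑ _g ∈ A.filter (fun g => ¬ (#(A.filter (fun h => bad g h)) : ℝ) ≤ m / 4), m / 4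
          ≤ ∑ g ∈ A.filter (fun g => ¬ (#(A.filter (fun h => bad g h)) : ℝ) ≤ m / 4),
            (#(A.filter (fun h => bad g h)) : ℝ) := by
            refine Finset.sum_le_sum fun g hg => ?_
            exact (not_le.1 (mem_filter.1 hg).2).le
        _ ≤ _ := Finset.sum_le_sum_of_subset_of_nonneg (filter_subset _ _)
            (fun _ _ _ => Nat.cast_nonneg _)
    rw [← h1] at h2
    have h3 : (#(A.filter (fun g => ¬ (#(A.filter (fun h => bad g h)) : ℝ) ≤ m / 4)) : ℝ) ≤ m / 16 := by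
      have h4 : (#(A.filter (fun g => ¬ (#(A.filter (fun h => bad g h)) : ℝ) ≤ m / 4)) : ℝ) * (m / 4) ≤
          m / 16 * (m / 4) := by
        have h5 : 0 ≤ α ^ 2 * n ^ 2 / 2 := by positivity
        nlinarith
      exact le_of_mul_le_mul_right h4 (by positivity)
    have h6 : (#A' : ℝ) + #(A.filter (fun g => ¬ (#(A.filter (fun h => bad g h)) : ℝ) ≤ m / 4)) = m := by
      have h7 := Finset.card_filter_add_card_filter_not (s := A)
        (fun g => (#(A.filter (fun h => bad g h)) : ℝ) ≤ m / 4)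
      rw [← hA'] at h7
      refine Eq.trans ?_ hm.symm
      rw [← h7]
      push_cast
      rfl
    linarith
  -- common good partners
  have hpartners : ∀ g ∈ A', ∀ g' ∈ A', m / 2 ≤ (#(A.filter (fun h => ¬ bad g h ∧ ¬ bad g' h)) : ℝ) := by
    intro g hg g' hg'
    have h1 := (hA'A g hg).2
    have h2 := (hA'A g' hg').2
    have h3 : A ⊆ A.filter (fun h => ¬ bad g h ∧ ¬ bad g' h) ∪
        (A.filter (fun h => bad g h) ∪ A.filter (fun h => bad g' h)) := by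
      intro h hh
      simp only [mem_union, mem_filter]
      by_cases c1 : bad g h
      · exact Or.inr (Or.inl ⟨hh, c1⟩)
      · by_cases c2 : bad g' h
        · exact Or.inr (Or.inr ⟨hh, c2⟩)
        · exact Or.inl ⟨hh, c1, c2⟩
    have h4 := (card_le_card h3).trans (card_union_le _ _)
    have h5 : #A ≤ #(A.filter (fun h => ¬ bad g h ∧ ¬ bad g' h)) +
        (#(A.filter (fun h => bad g h)) + #(A.filter (fun h => bad g' h))) :=
      h4.trans (Nat.add_le_add_left (card_union_le _ _) _)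
    have h6 : (#A : ℝ) ≤ #(A.filter (fun h => ¬ bad g h ∧ ¬ bad g' h)) +
        (#(A.filter (fun h => bad g h)) + #(A.filter (fun h => bad g' h))) := by exact_mod_cast h5
    rw [← hm] at h6
    linarith
  -- rich quotients
  have hgood1 : ∀ g ∈ A, ∀ h ∈ A, ¬ bad g h → δ * n ≤ #(P.filter (fun p => (g * h⁻¹) • p ∈ P)) := by
    intro g _ h _ hgh
    rw [hbad] at hgh
    push Not at hgh
    refine hgh.2.trans ?_
    have : #(Yg E σ g ∩ Yg E σ h) ≤ #(P.filter (fun p => (g * h⁻¹) • p ∈ P)) := by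
      refine card_le_card_of_injOn (fun y => h • y) ?_ ?_
      · intro y hy
        obtain ⟨hy1, hy2⟩ := mem_inter.1 (mem_coe.1 hy)
        have e1 := (mem_product.1 (hEP ((mem_Yg hσ).1 hy1).1)).2
        have e2 := (mem_product.1 (hEP ((mem_Yg hσ).1 hy2).1)).2
        refine mem_coe.2 (mem_filter.2 ⟨e2, ?_⟩)
        rw [mul_smul, inv_smul_smul]
        exact e1
      · intro y _ y' _ hyy
        exact MulAction.injective h hyy
    exact_mod_cast this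
  have hgood2 : ∀ g ∈ A, ∀ h ∈ A, ¬ bad g h → δ * n ≤ #(P.filter (fun p => (g⁻¹ * h) • p ∈ P)) := by
    intro g _ h _ hgh
    rw [hbad] at hgh
    push Not at hgh
    refine hgh.1.trans ?_
    have : #(Xg E σ g ∩ Xg E σ h) ≤ #(P.filter (fun p => (g⁻¹ * h) • p ∈ P)) := by
      refine card_le_card_of_injOn (fun y => h⁻¹ • y) ?_ ?_
      · intro y hy
        obtain ⟨hy1, hy2⟩ := mem_inter.1 (mem_coe.1 hy)
        have e1 := (mem_product.1 (hEP ((mem_Xg hσ).1 hy1).1)).1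
        have e2 := (mem_product.1 (hEP ((mem_Xg hσ).1 hy2).1)).1
        refine mem_coe.2 (mem_filter.2 ⟨e2, ?_⟩)
        rw [mul_smul, smul_inv_smul]
        exact e1
      · intro y _ y' _ hyy
        exact MulAction.injective h⁻¹ hyy
    exact_mod_cast this
  have hfinal : ∀ (R T : Finset Hy), (∀ r ∈ R, δ * n ≤ #(P.filter (fun p => r • p ∈ P))) →
      m / 2 * #T ≤ (#R : ℝ) ^ 2 → (#T : ℝ) ≤ max 1 (16 / (α * δ ^ 4)) * n :=
    fun R T hR hRT => card_bound hP α δ m n hα0 hδ0 hn0 hn hδn hmα R T hR hRT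
  refine ⟨w.1, A', ?_, ?_, ?_, ?_, ?_⟩
  · linarith
  · intro a ha
    have := ((mem_Xg hσ).1 (hmemA a (hA'A a ha).1).2.1).1
    exact (mem_product.1 (hEP this)).1
  · intro a ha b hb hab
    have e1 := ((mem_Xg hσ).1 (hmemA a (hA'A a (mem_coe.1 ha)).1).2.1).2
    have e2 := ((mem_Xg hσ).1 (hmemA b (hA'A b (mem_coe.1 hb)).1).2.1).2
    simp only at hab
    rw [← e1, ← e2, hab]
  · refine hfinal ((A * A⁻¹).filter (fun r => δ * n ≤ #(P.filter (fun p => r • p ∈ P)))) _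
      (fun r hr => (mem_filter.1 hr).2) ?_
    refine small_of_partners A A' _ (fun g h => g * h⁻¹) ?_ (m / 2) _ ?_ ?_
    · intro g h h' hh
      exact inv_injective (mul_left_cancel hh)
    · intro u hu
      obtain ⟨g, hg, y, hy, rfl⟩ := mem_mul.1 hu
      obtain ⟨g', hg', rfl⟩ := mem_inv.1 hy
      exact ⟨g, hg, g', hg', fun h => by group⟩
    · intro g hg g' hg'
      refine (hpartners g hg g' hg').trans ?_
      have : #(A.filter (fun h => ¬ bad g h ∧ ¬ bad g' h)) ≤ #(A.filter (fun h =>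
          g * h⁻¹ ∈ (A * A⁻¹).filter (fun r => δ * n ≤ #(P.filter (fun p => r • p ∈ P))) ∧
          g' * h⁻¹ ∈ (A * A⁻¹).filter (fun r => δ * n ≤ #(P.filter (fun p => r • p ∈ P))))) := by
        apply card_le_card
        intro h hh
        obtain ⟨h1, h2, h3⟩ := mem_filter.1 hh
        refine mem_filter.2 ⟨h1, mem_filter.2 ⟨?_, ?_⟩, mem_filter.2 ⟨?_, ?_⟩⟩
        · exact mul_mem_mul (hA'A g hg).1 (Finset.inv_mem_inv h1)
        · exact hgood1 g (hA'A g hg).1 h h1 h2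
        · exact mul_mem_mul (hA'A g' hg').1 (Finset.inv_mem_inv h1)
        · exact hgood1 g' (hA'A g' hg').1 h h1 h3
      exact_mod_cast this
  · refine hfinal ((A⁻¹ * A).filter (fun r => δ * n ≤ #(P.filter (fun p => r • p ∈ P)))) _
      (fun r hr => (mem_filter.1 hr).2) ?_
    refine small_of_partners A A' _ (fun g h => g⁻¹ * h) ?_ (m / 2) _ ?_ ?_
    · intro g h h' hh
      exact mul_left_cancel hh
    · intro u hu
      obtain ⟨y, hy, g', hg', rfl⟩ := mem_mul.1 hu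
      obtain ⟨g, hg, rfl⟩ := mem_inv.1 hy
      exact ⟨g, hg, g', hg', fun h => by group⟩
    · intro g hg g' hg'
      refine (hpartners g hg g' hg').trans ?_
      have : #(A.filter (fun h => ¬ bad g h ∧ ¬ bad g' h)) ≤ #(A.filter (fun h =>
          g⁻¹ * h ∈ (A⁻¹ * A).filter (fun r => δ * n ≤ #(P.filter (fun p => r • p ∈ P))) ∧
          g'⁻¹ * h ∈ (A⁻¹ * A).filter (fun r => δ * n ≤ #(P.filter (fun p => r • p ∈ P))))) := by
        apply card_le_card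
        intro h hh
        obtain ⟨h1, h2, h3⟩ := mem_filter.1 hh
        refine mem_filter.2 ⟨h1, mem_filter.2 ⟨?_, ?_⟩, mem_filter.2 ⟨?_, ?_⟩⟩
        · exact mul_mem_mul (Finset.inv_mem_inv (hA'A g hg).1) h1
        · exact hgood2 g (hA'A g hg).1 h h1 h2
        · exact mul_mem_mul (Finset.inv_mem_inv (hA'A g' hg').1) h1
        · exact hgood2 g' (hA'A g' hg').1 h h1 h3
      exact_mod_cast this

/-- a family of homotheties which moves a positive proportion of the pairs is not of linear size -/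
theorem few_moved (C ε : ℝ) (hε : 0 < ε) : ∃ N : ℕ, ∀ P : Finset (ℝ × ℝ), GP P → N ≤ #P →
    ∀ (G : Finset Hy) (E : Finset ((ℝ × ℝ) × (ℝ × ℝ))) (σ : (ℝ × ℝ) × (ℝ × ℝ) → Hy),
      (#G : ℝ) ≤ C * #P → E ⊆ P ×ˢ P → (∀ e ∈ E, σ e ∈ G) → (∀ e ∈ E, σ e • e.1 = e.2) →
      (#E : ℝ) ≤ ε * (#P : ℝ) ^ 2 := by
  obtain ⟨κ, K, hκ, hK, N₁, h1⟩ := selection (max 1 C) ε (by positivity) hε
  obtain ⟨N₂, h2⟩ := no_approximate κ K hκ hK
  refine ⟨N₁ + N₂, fun P hP hN G E σ hG hEP hσG hσ => ?_⟩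
  by_contra hlt
  push Not at hlt
  have hG' : (#G : ℝ) ≤ max 1 C * #P :=
    hG.trans (mul_le_mul_of_nonneg_right (le_max_right _ _) (Nat.cast_nonneg _))
  obtain ⟨x, A, hA1, hA2, hA3, hA4, hA5⟩ := h1 P hP (by omega) G E σ hG' hEP hlt.le hσG hσ
  exact h2 P hP (by omega) x A hA1 hA2 hA3 hA4 hA5

end Pool.Agent.Work.MP_763b10_co
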