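import Mathlib
import Pool.Agent.Work.MP_763b10_co.Main

set_option autoImplicit false

/-!
The statements about pairs (point, ratio) and about blocking sets.
-/

namespace Pool.Agent.Work.MP_763b10_co

open Finset

/-- the homothety which moves `p` to `p'` when `d.1` divides `(p, p')` in the ratio `d.2` -/
noncomputable def toHy (d : (ℝ × ℝ) × ℝ) : Hy :=
  if h : d.2 ≠ 0 ∧ d.2 ≠ 1 then
    ⟨Units.mk0 (-((1 - d.2) / d.2)) (neg_ne_zero.2 (div_ne_zero (sub_ne_zero.2 (Ne.symm h.2)) h.1)),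
      d.2⁻¹ • d.1⟩
  else 1

theorem toHy_smul (d : (ℝ × ℝ) × ℝ) (h : d.2 ≠ 0 ∧ d.2 ≠ 1) (p p' : ℝ × ℝ)
    (hd : d.1 = (1 - d.2) • p + d.2 • p') : toHy d • p = p' := by
  unfold toHy
  rw [dif_pos h, Hy.smul_def]
  simp only [Units.val_mk0]
  rw [hd, smul_add, smul_smul, smul_smul, inv_mul_cancel₀ h.1, one_smul, neg_smul, ← add_assoc]
  have : (1 - d.2) / d.2 = d.2⁻¹ * (1 - d.2) := by rw [div_eq_inv_mul]
  rw [this, neg_add_cancel, zero_add]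

/-- few pairs (point, ratio) divide few pairs of points -/
theorem divided (C ε : ℝ) (hε : 0 < ε) : ∃ N : ℕ, ∀ P : Finset (ℝ × ℝ), N ≤ #P → GP P →
    ∀ D : Finset ((ℝ × ℝ) × ℝ), (∀ d ∈ D, d.2 ≠ 0 ∧ d.2 ≠ 1) → (#D : ℝ) ≤ C * #P →
      (Set.ncard {e : (ℝ × ℝ) × (ℝ × ℝ) | e.1 ∈ P ∧ e.2 ∈ P ∧ e.1 ≠ e.2 ∧
        ∃ d ∈ D, d.1 = (1 - d.2) • e.1 + d.2 • e.2} : ℝ) ≤ ε * (#P : ℝ) ^ 2 := by
  classical
  obtain ⟨N, hN⟩ := few_moved C ε hε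
  refine ⟨N, fun P hPN hP D hD hDC => ?_⟩
  obtain ⟨E, hE⟩ : ∃ E : Finset ((ℝ × ℝ) × (ℝ × ℝ)), E = (P ×ˢ P).filter (fun e => e.1 ≠ e.2 ∧
    ∃ d ∈ D, d.1 = (1 - d.2) • e.1 + d.2 • e.2) := ⟨_, rfl⟩
  have hset : {e : (ℝ × ℝ) × (ℝ × ℝ) | e.1 ∈ P ∧ e.2 ∈ P ∧ e.1 ≠ e.2 ∧
        ∃ d ∈ D, d.1 = (1 - d.2) • e.1 + d.2 • e.2} = (E : Set ((ℝ × ℝ) × (ℝ × ℝ))) := by
    ext e
    rw [hE]
    simp only [Set.mem_setOf_eq, coe_filter, mem_product]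
    tauto
  rw [hset, Set.ncard_coe_finset]
  have hmem : ∀ e ∈ E, e.1 ∈ P ∧ e.2 ∈ P ∧ ∃ d ∈ D, d.1 = (1 - d.2) • e.1 + d.2 • e.2 := by
    intro e he
    rw [hE, mem_filter, mem_product] at he
    exact ⟨he.1.1, he.1.2, he.2.2⟩
  obtain ⟨σ, hσ⟩ : ∃ σ : (ℝ × ℝ) × (ℝ × ℝ) → Hy, ∀ e ∈ E, σ e ∈ D.image toHy ∧ σ e • e.1 = e.2 := by
    have h1 : ∀ e : (ℝ × ℝ) × (ℝ × ℝ), ∃ g : Hy, e ∈ E → g ∈ D.image toHy ∧ g • e.1 = e.2 := by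
      intro e
      by_cases he : e ∈ E
      · obtain ⟨_, _, d, hd, hde⟩ := hmem e he
        exact ⟨toHy d, fun _ => ⟨mem_image_of_mem _ hd, toHy_smul d (hD d hd) _ _ hde⟩⟩
      · exact ⟨1, fun h => absurd h he⟩
    choose σ hσ using h1
    exact ⟨σ, hσ⟩
  refine hN P hP hPN (D.image toHy) E σ ?_ ?_ (fun e he => (hσ e he).1) (fun e he => (hσ e he).2)
  · refine le_trans ?_ hDC
    exact_mod_cast card_image_le
  · intro e he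
    exact mem_product.2 ⟨(hmem e he).1, (hmem e he).2.1⟩

/-- the ratios in which `x` divides pairs of points of `P` -/
theorem ratios_finite (P : Finset (ℝ × ℝ)) (x : ℝ × ℝ) :
    {t : ℝ | t ≠ 0 ∧ t ≠ 1 ∧ ∃ p ∈ P, ∃ q ∈ P, p ≠ q ∧ x = (1 - t) • p + t • q}.Finite := by
  classical
  have h1 : ∀ w ∈ P ×ˢ P, {t : ℝ | w.1 ≠ w.2 ∧ x = (1 - t) • w.1 + t • w.2}.Finite := by
    intro w _
    apply Set.Subsingleton.finite
    rintro t ⟨hw, ht⟩ s ⟨_, hs⟩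
    have h2 : (t - s) • (w.2 - w.1) = 0 := by
      have h3 : (1 - t) • w.1 + t • w.2 = (1 - s) • w.1 + s • w.2 := by rw [← ht, ← hs]
      have h4 : (t - s) • (w.2 - w.1) = ((1 - t) • w.1 + t • w.2) - ((1 - s) • w.1 + s • w.2) := by
        module
      rw [h4, h3, sub_self]
    rcases smul_eq_zero.1 h2 with h | h
    · linarith
    · exact absurd (sub_eq_zero.1 h).symm hw
  refine (Set.Finite.biUnion (P ×ˢ P).finite_toSet h1).subset ?_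
  rintro t ⟨_, _, p, hp, q, hq, hpq, hx⟩
  refine Set.mem_biUnion (x := (p, q)) (mem_coe.2 (mem_product.2 ⟨hp, hq⟩)) ⟨hpq, hx⟩

/-- the pairs of points of `P` divided by `x` in the ratio `t` -/
noncomputable def dv (P : Finset (ℝ × ℝ)) (x : ℝ × ℝ) (t : ℝ) : Finset ((ℝ × ℝ) × (ℝ × ℝ)) := by
  classical
  exact (P ×ˢ P).filter (fun f => f.1 ≠ f.2 ∧ x = (1 - t) • f.1 + t • f.2)

theorem mem_dv {P : Finset (ℝ × ℝ)} {x : ℝ × ℝ} {t : ℝ} {f : (ℝ × ℝ) × (ℝ × ℝ)} :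
    f ∈ dv P x t ↔ (f.1 ∈ P ∧ f.2 ∈ P) ∧ f.1 ≠ f.2 ∧ x = (1 - t) • f.1 + t • f.2 := by
  unfold dv
  rw [mem_filter, mem_product]

theorem ncard_dv (P : Finset (ℝ × ℝ)) (x : ℝ × ℝ) (t : ℝ) :
    Set.ncard {f : (ℝ × ℝ) × (ℝ × ℝ) | f.1 ∈ P ∧ f.2 ∈ P ∧ f.1 ≠ f.2 ∧
      x = (1 - t) • f.1 + t • f.2} = #(dv P x t) := by
  have : {f : (ℝ × ℝ) × (ℝ × ℝ) | f.1 ∈ P ∧ f.2 ∈ P ∧ f.1 ≠ f.2 ∧
      x = (1 - t) • f.1 + t • f.2} = (dv P x t : Set ((ℝ × ℝ) × (ℝ × ℝ))) := by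
    ext f
    rw [mem_coe, mem_dv, Set.mem_setOf_eq, and_assoc]
  rw [this, Set.ncard_coe_finset]

theorem sum_dv {P : Finset (ℝ × ℝ)} (hP : GP P) (x : ℝ × ℝ) (T : Finset ℝ) (hT : ∀ t ∈ T, t ≠ 0) :
    ∑ t ∈ T, #(dv P x t) ≤ #P := by
  classical
  rw [← card_sigma]
  refine card_le_card_of_injOn (fun u => u.2.1) ?_ ?_
  · rintro ⟨t, f⟩ hu
    have h1 := (mem_sigma.1 (mem_coe.1 hu)).2
    exact mem_coe.2 (mem_dv.1 h1).1.1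
  · rintro ⟨t, f⟩ hu ⟨s, g⟩ hv huv
    obtain ⟨ht, hf⟩ := mem_sigma.1 (mem_coe.1 hu)
    obtain ⟨hs, hg⟩ := mem_sigma.1 (mem_coe.1 hv)
    simp only at ht hf hs hg huv
    obtain ⟨⟨hf1, hf2⟩, hf3, hf4⟩ := mem_dv.1 hf
    obtain ⟨⟨hg1, hg2⟩, hg3, hg4⟩ := mem_dv.1 hg
    have ht0 := hT t ht
    have hs0 := hT s hs
    have e1 : f.2 = f.1 + t⁻¹ • (x - f.1) := by
      rw [hf4]
      have : (1 - t) • f.1 + t • f.2 - f.1 = t • (f.2 - f.1) := by module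
      rw [this, smul_smul, inv_mul_cancel₀ ht0, one_smul, add_sub_cancel]
    have e2 : g.2 = f.1 + s⁻¹ • (x - f.1) := by
      rw [huv, hg4]
      have : (1 - s) • g.1 + s • g.2 - g.1 = s • (g.2 - g.1) := by module
      rw [this, smul_smul, inv_mul_cancel₀ hs0, one_smul, add_sub_cancel]
    have e3 : f.2 = g.2 := hP.line hf1 hf2 hg2 hf3 (by rw [huv]; exact hg3) e1 e2
    have e4 : f = g := Prod.ext huv e3
    have e5 : x - f.1 ≠ 0 := by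
      intro h
      rw [h, smul_zero, add_zero] at e1
      exact hf3 e1.symm
    have e6 : (t⁻¹ - s⁻¹) • (x - f.1) = 0 := by
      rw [sub_smul]
      rw [e1, e2] at e3
      rw [add_left_cancel e3, sub_self]
    rcases smul_eq_zero.1 e6 with h | h
    · have : t = s := inv_injective (sub_eq_zero.1 h)
      subst this
      subst e4
      rfl
    · exact absurd h e5

/-- the ratios which occur often at `x` -/
theorem popular_card {P : Finset (ℝ × ℝ)} (hP : GP P) (x : ℝ × ℝ) (η : ℝ) (hη : 0 < η)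
    (hn : 0 < #P) (T : Finset ℝ) (hT : ∀ t ∈ T, t ≠ 0 ∧ η * #P ≤ #(dv P x t)) :
    (#T : ℝ) ≤ 1 / η := by
  have h1 := sum_dv hP x T (fun t ht => (hT t ht).1)
  have h2 : (#T : ℝ) * (η * #P) ≤ #P := by
    calc (#T : ℝ) * (η * #P) = ∑ _t ∈ T, η * (#P : ℝ) := by rw [sum_const, nsmul_eq_mul]
      _ ≤ ∑ t ∈ T, (#(dv P x t) : ℝ) := Finset.sum_le_sum fun t ht => (hT t ht).2
      _ ≤ #P := by exact_mod_cast h1
  have hn' : (0 : ℝ) < #P := by exact_mod_cast hn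
  rw [le_div_iff₀ hη]
  have h3 : (#T : ℝ) * η * #P ≤ 1 * #P := by linarith
  exact le_of_mul_le_mul_right h3 hn'

/-- blockers divide almost all pairs in unpopular ratios -/
theorem popular (C η ε : ℝ) (hη : 0 < η) (hε : 0 < ε) : ∃ N : ℕ, ∀ P : Finset (ℝ × ℝ), N ≤ #P →
    GP P → ∀ Q : Finset (ℝ × ℝ), (#Q : ℝ) ≤ C * #P →
      (Set.ncard {e : (ℝ × ℝ) × (ℝ × ℝ) | e.1 ∈ P ∧ e.2 ∈ P ∧ e.1 ≠ e.2 ∧
        ∃ x ∈ Q, ∃ t : ℝ, t ≠ 0 ∧ t ≠ 1 ∧ x = (1 - t) • e.1 + t • e.2 ∧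
          η * #P ≤ (Set.ncard {f : (ℝ × ℝ) × (ℝ × ℝ) | f.1 ∈ P ∧ f.2 ∈ P ∧ f.1 ≠ f.2 ∧
            x = (1 - t) • f.1 + t • f.2} : ℝ)} : ℝ) ≤ ε * (#P : ℝ) ^ 2 := by
  classical
  obtain ⟨N, hN⟩ := divided (C / η) ε hε
  refine ⟨N + 1, fun P hPN hP Q hQ => ?_⟩
  have hn : 0 < #P := by omega
  have hn' : (0 : ℝ) < #P := by exact_mod_cast hn
  obtain ⟨T, hT⟩ : ∃ T : ℝ × ℝ → Finset ℝ, ∀ x t, t ∈ T x ↔ (t ≠ 0 ∧ t ≠ 1 ∧
      ∃ p ∈ P, ∃ q ∈ P, p ≠ q ∧ x = (1 - t) • p + t • q) ∧ η * #P ≤ (#(dv P x t) : ℝ) := by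
    refine ⟨fun x => (ratios_finite P x).toFinset.filter (fun t => η * #P ≤ (#(dv P x t) : ℝ)), ?_⟩
    intro x t
    rw [mem_filter, Set.Finite.mem_toFinset, Set.mem_setOf_eq]
  obtain ⟨D, hD⟩ : ∃ D : Finset ((ℝ × ℝ) × ℝ), D = Q.biUnion (fun x => (T x).image (fun t => (x, t))) :=
    ⟨_, rfl⟩
  have hmemD : ∀ x t, (x, t) ∈ D ↔ x ∈ Q ∧ t ∈ T x := by
    intro x t
    rw [hD, mem_biUnion]
    constructor
    · rintro ⟨y, hy, h⟩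
      obtain ⟨s, hs, hst⟩ := mem_image.1 h
      rw [Prod.mk.injEq] at hst
      obtain ⟨rfl, rfl⟩ := hst
      exact ⟨hy, hs⟩
    · rintro ⟨h1, h2⟩
      exact ⟨x, h1, mem_image_of_mem _ h2⟩
  have hDcard : (#D : ℝ) ≤ C / η * #P := by
    have h1 : (#D : ℝ) ≤ ∑ x ∈ Q, (#(T x) : ℝ) := by
      rw [hD]
      have h2 : #(Q.biUnion (fun x => (T x).image (fun t => (x, t)))) ≤ ∑ x ∈ Q, #(T x) :=
        card_biUnion_le.trans (Finset.sum_le_sum fun x _ => card_image_le)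
      exact_mod_cast h2
    have h3 : ∀ x ∈ Q, (#(T x) : ℝ) ≤ 1 / η := by
      intro x _
      refine popular_card hP x η hη hn (T x) ?_
      intro t ht
      have := (hT x t).1 ht
      exact ⟨this.1.1, this.2⟩
    have h4 := Finset.sum_le_sum h3
    rw [Finset.sum_const, nsmul_eq_mul] at h4
    have h5 : (#Q : ℝ) * (1 / η) ≤ C * #P * (1 / η) := mul_le_mul_of_nonneg_right hQ (by positivity)
    have h6 : C * #P * (1 / η) = C / η * #P := by ring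
    linarith
  refine le_trans ?_ (hN P (by omega) hP D ?_ hDcard)
  · have hfin : {e : (ℝ × ℝ) × (ℝ × ℝ) | e.1 ∈ P ∧ e.2 ∈ P ∧ e.1 ≠ e.2 ∧
        ∃ d ∈ D, d.1 = (1 - d.2) • e.1 + d.2 • e.2}.Finite := by
      refine (P ×ˢ P).finite_toSet.subset ?_
      rintro e ⟨h1, h2, _⟩
      exact mem_coe.2 (mem_product.2 ⟨h1, h2⟩)
    have := Set.ncard_le_ncard (s := {e : (ℝ × ℝ) × (ℝ × ℝ) | e.1 ∈ P ∧ e.2 ∈ P ∧ e.1 ≠ e.2 ∧
        ∃ x ∈ Q, ∃ t : ℝ, t ≠ 0 ∧ t ≠ 1 ∧ x = (1 - t) • e.1 + t • e.2 ∧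
          η * #P ≤ (Set.ncard {f : (ℝ × ℝ) × (ℝ × ℝ) | f.1 ∈ P ∧ f.2 ∈ P ∧ f.1 ≠ f.2 ∧
            x = (1 - t) • f.1 + t • f.2} : ℝ)}) ?_ hfin
    · exact_mod_cast this
    · rintro e ⟨h1, h2, h3, x, hx, t, ht0, ht1, hxt, hη'⟩
      rw [ncard_dv] at hη'
      exact ⟨h1, h2, h3, (x, t), (hmemD x t).2 ⟨hx, (hT x t).2 ⟨⟨ht0, ht1, _, h1, _, h2, h3, hxt⟩, hη'⟩⟩,
        hxt⟩
  · rintro ⟨x, t⟩ hd
    have := ((hT x t).1 ((hmemD x t).1 hd).2).1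
    exact ⟨this.1, this.2.1⟩

/-- the total number of ratios in a blocking set -/
theorem ratios (C : ℝ) : ∃ N : ℕ, ∀ P : Finset (ℝ × ℝ), N ≤ #P → GP P → ∀ Q : Finset (ℝ × ℝ),
    (∀ p ∈ P, ∀ q ∈ P, p ≠ q → ∃ x ∈ Q, x ∈ openSegment ℝ p q) →
      C * #P ≤ ∑ x ∈ Q, (Set.ncard {t : ℝ | 0 < t ∧ t < 1 ∧
        ∃ p ∈ P, ∃ q ∈ P, p ≠ q ∧ x = (1 - t) • p + t • q} : ℝ) := by
  classical
  obtain ⟨N, hN⟩ := divided C (1 / 2) (by norm_num)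
  refine ⟨N + 3, fun P hPN hP Q hQ => ?_⟩
  by_contra hlt
  push Not at hlt
  have hfin : ∀ x, {t : ℝ | 0 < t ∧ t < 1 ∧
        ∃ p ∈ P, ∃ q ∈ P, p ≠ q ∧ x = (1 - t) • p + t • q}.Finite := by
    intro x
    refine (ratios_finite P x).subset ?_
    rintro t ⟨h1, h2, h3⟩
    exact ⟨h1.ne', h2.ne, h3⟩
  obtain ⟨T, hT⟩ : ∃ T : ℝ × ℝ → Finset ℝ, T = fun x => (hfin x).toFinset := ⟨_, rfl⟩
  have hmemT : ∀ x t, t ∈ T x ↔ 0 < t ∧ t < 1 ∧ ∃ p ∈ P, ∃ q ∈ P, p ≠ q ∧ x = (1 - t) • p + t • q := by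
    intro x t
    rw [hT]
    simp only [Set.Finite.mem_toFinset, Set.mem_setOf_eq]
  have hcardT : ∀ x, (Set.ncard {t : ℝ | 0 < t ∧ t < 1 ∧
        ∃ p ∈ P, ∃ q ∈ P, p ≠ q ∧ x = (1 - t) • p + t • q} : ℝ) = #(T x) := by
    intro x
    rw [hT, Set.ncard_eq_toFinset_card _ (hfin x)]
  obtain ⟨D, hD⟩ : ∃ D : Finset ((ℝ × ℝ) × ℝ), D = Q.biUnion (fun x => (T x).image (fun t => (x, t))) :=
    ⟨_, rfl⟩
  have hmemD : ∀ x t, (x, t) ∈ D ↔ x ∈ Q ∧ t ∈ T x := by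
    intro x t
    rw [hD, mem_biUnion]
    constructor
    · rintro ⟨y, hy, h⟩
      obtain ⟨s, hs, hst⟩ := mem_image.1 h
      rw [Prod.mk.injEq] at hst
      obtain ⟨rfl, rfl⟩ := hst
      exact ⟨hy, hs⟩
    · rintro ⟨h1, h2⟩
      exact ⟨x, h1, mem_image_of_mem _ h2⟩
  have hDcard : (#D : ℝ) ≤ C * #P := by
    refine le_trans ?_ hlt.le
    rw [Finset.sum_congr rfl (fun x _ => hcardT x), hD]
    have h2 : #(Q.biUnion (fun x => (T x).image (fun t => (x, t)))) ≤ ∑ x ∈ Q, #(T x) :=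
      card_biUnion_le.trans (Finset.sum_le_sum fun x _ => card_image_le)
    exact_mod_cast h2
  have h1 := hN P (by omega) hP D ?_ hDcard
  · have h2 : {e : (ℝ × ℝ) × (ℝ × ℝ) | e.1 ∈ P ∧ e.2 ∈ P ∧ e.1 ≠ e.2 ∧
        ∃ d ∈ D, d.1 = (1 - d.2) • e.1 + d.2 • e.2} = (P.offDiag : Set ((ℝ × ℝ) × (ℝ × ℝ))) := by
      ext e
      rw [Set.mem_setOf_eq, mem_coe, mem_offDiag]
      constructor
      · rintro ⟨h1, h2, h3, _⟩
        exact ⟨h1, h2, h3⟩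
      · rintro ⟨h1, h2, h3⟩
        refine ⟨h1, h2, h3, ?_⟩
        obtain ⟨x, hx, a, b, ha, hb, hab, hxx⟩ := hQ e.1 h1 e.2 h2 h3
        have ha' : a = 1 - b := by linarith
        subst ha'
        refine ⟨(x, b), (hmemD x b).2 ⟨hx, (hmemT x b).2 ⟨hb, by linarith, e.1, h1, e.2, h2, h3, hxx.symm⟩⟩,
          hxx.symm⟩
    rw [h2, Set.ncard_coe_finset, offDiag_card] at h1
    have h3 : #P ≤ #P * #P := Nat.le_mul_self _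
    rw [Nat.cast_sub h3] at h1
    push_cast at h1
    have h4 : (3 : ℝ) ≤ #P := by exact_mod_cast (by omega : 3 ≤ #P)
    nlinarith
  · rintro ⟨x, t⟩ hd
    have := (hmemT x t).1 ((hmemD x t).1 hd).2
    exact ⟨this.1.ne', this.2.1.ne⟩

end Pool.Agent.Work.MP_763b10_co
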